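import Pool.Agent.Helper66.RMP.Anti

/-!
MP_8b97a7_co, matching type: construction of regular maximal (2,3)-antichains from incidence
structures.
-/

set_option autoImplicit false
set_option linter.unusedSectionVars false

namespace Pool.Agent.Helper66.RMP

open Finset Pool.Agent.Helper8.RM

/-! ## Antichains from graphs -/

section graph

variable {n : ℕ} (R : Fin n → Fin n → Prop)

/-- `S` is a clique. -/
def Cl {V : Type} (R : V → V → Prop) (S : Finset V) : Prop := ∀ x ∈ S, ∀ y ∈ S, x ≠ y → R x y

open Classical in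
/-- The triangles and the non-edges. -/
noncomputable def antiOf : Finset (Finset (Fin n)) :=
  Finset.univ.filter fun S => (S.card = 3 ∧ Cl R S) ∨ (S.card = 2 ∧ ¬ Cl R S)

open Classical in
theorem mem_antiOf (S : Finset (Fin n)) :
    S ∈ antiOf R ↔ (S.card = 3 ∧ Cl R S) ∨ (S.card = 2 ∧ ¬ Cl R S) := by
  unfold antiOf
  rw [Finset.mem_filter]
  exact ⟨fun h => h.2, fun h => ⟨Finset.mem_univ _, h⟩⟩

variable {R}

theorem cl_pair {V : Type} [DecidableEq V] {R : V → V → Prop} (hs : ∀ x y, R x y → R y x) {x y : V}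
    (h : x ≠ y) : Cl R {x, y} ↔ R x y := by
  constructor
  · intro h'
    exact h' x (by simp) y (by simp) h
  · intro h' a ha b hb hab
    rw [Finset.mem_insert, Finset.mem_singleton] at ha hb
    rcases ha with rfl | rfl <;> rcases hb with rfl | rfl
    · exact absurd rfl hab
    · exact h'
    · exact hs _ _ h'
    · exact absurd rfl hab

theorem cl_triple {V : Type} [DecidableEq V] {R : V → V → Prop} (hs : ∀ x y, R x y → R y x)
    {x y z : V} (h1 : R x y) (h2 : R x z) (h3 : R y z) : Cl R {x, y, z} := by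
  intro a ha b hb hab
  rw [Finset.mem_insert, Finset.mem_insert, Finset.mem_singleton] at ha hb
  rcases ha with rfl | rfl | rfl <;> rcases hb with rfl | rfl | rfl
  · exact absurd rfl hab
  · exact h1
  · exact h2
  · exact hs _ _ h1
  · exact absurd rfl hab
  · exact h3
  · exact hs _ _ h2
  · exact hs _ _ h3
  · exact absurd rfl hab

theorem isMax23_of_graph (hs : ∀ x y, R x y → R y x) (hi : ∀ x y, R x y → x ≠ y)
    (he : ∀ x y, R x y → ∃ z, R x z ∧ R y z) (hn : 2 ≤ n) : IsMax23 n (antiOf R) := by
  refine ⟨?_, ?_, ?_⟩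
  · intro S hS
    rw [mem_antiOf] at hS
    rcases hS with h | h
    · exact Or.inr h.1
    · exact Or.inl h.1
  · intro S hS T hT hST hsub
    have hlt : S.card < T.card := Finset.card_lt_card (Finset.ssubset_iff_subset_ne.2 ⟨hsub, hST⟩)
    rw [mem_antiOf] at hS hT
    rcases hS with h | h
    · rcases hT with h' | h' <;> omega
    · rcases hT with h' | h'
      · exact h.2 fun x hx y hy hxy => h'.2 x (hsub hx) y (hsub hy) hxy
      · omega
  · intro X hX
    -- every pair is inside a member
    have hpair : ∀ x y : Fin n, x ≠ y → ∃ S ∈ antiOf R, ({x, y} : Finset (Fin n)) ⊆ S := by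
      intro x y hxy
      by_cases h : R x y
      · obtain ⟨z, h1, h2⟩ := he x y h
        refine ⟨{x, y, z}, ?_, ?_⟩
        · rw [mem_antiOf]
          exact Or.inl ⟨card_triple hxy (hi _ _ h1) (hi _ _ h2), cl_triple hs h h1 h2⟩
        · intro w hw
          rw [Finset.mem_insert, Finset.mem_singleton] at hw
          rcases hw with rfl | rfl <;> simp
      · refine ⟨{x, y}, ?_, fun _ h => h⟩
        rw [mem_antiOf]
        exact Or.inr ⟨Finset.card_pair hxy, fun h' => h ((cl_pair hs hxy).1 h')⟩
    by_cases hcl : Cl R X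
    · by_cases hc : 3 < X.card
      · obtain ⟨S, hSX, hSc⟩ := Finset.exists_subset_card_eq (s := X) (n := 3) hc.le
        refine ⟨S, ?_, Or.inr hSX⟩
        rw [mem_antiOf]
        exact Or.inl ⟨hSc, fun x hx y hy hxy => hcl x (hSX hx) y (hSX hy) hxy⟩
      · by_cases hc3 : X.card = 3
        · exact absurd ((mem_antiOf R X).2 (Or.inl ⟨hc3, hcl⟩)) hX
        · by_cases hc2 : X.card = 2
          · obtain ⟨x, y, hxy, rfl⟩ := Finset.card_eq_two.1 hc2
            obtain ⟨S, hS, hS'⟩ := hpair x y hxy
            exact ⟨S, hS, Or.inl hS'⟩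
          · have hc1 : X.card ≤ 1 := by omega
            have : Nonempty (Fin n) := ⟨⟨0, by omega⟩⟩
            obtain ⟨x, hx⟩ := Finset.card_le_one_iff_subset_singleton.1 hc1
            have : Nontrivial (Fin n) := Fin.nontrivial_iff_two_le.2 hn
            obtain ⟨y, hy⟩ := exists_ne x
            obtain ⟨S, hS, hS'⟩ := hpair x y hy.symm
            refine ⟨S, hS, Or.inl fun w hw => hS' ?_⟩
            have := hx hw
            rw [Finset.mem_singleton] at this
            rw [this]
            simp
    · have h1 : ∃ x ∈ X, ∃ y ∈ X, x ≠ y ∧ ¬ R x y := by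
        unfold Cl at hcl
        push Not at hcl
        exact hcl
      obtain ⟨x, hx, y, hy, hxy, hR⟩ := h1
      refine ⟨{x, y}, ?_, Or.inr ?_⟩
      · rw [mem_antiOf]
        exact Or.inr ⟨Finset.card_pair hxy, fun h' => hR ((cl_pair hs hxy).1 h')⟩
      · intro w hw
        rw [Finset.mem_insert, Finset.mem_singleton] at hw
        rcases hw with rfl | rfl
        · exact hx
        · exact hy

open Classical in
theorem isReg_of_graph (hs : ∀ x y, R x y → R y x) (r : ℕ)
    (h : ∀ x, (Finset.univ.filter fun y => x ≠ y ∧ ¬ R x y).card +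
      (Finset.univ.filter fun S : Finset (Fin n) => S.card = 3 ∧ Cl R S ∧ x ∈ S).card = r) :
    IsReg n (antiOf R) r := by
  intro x
  rw [← h x]
  have e1 : (antiOf R).filter (fun S => x ∈ S) =
      ((Finset.univ.filter fun y => x ≠ y ∧ ¬ R x y).image fun y => ({x, y} : Finset (Fin n))) ∪
      (Finset.univ.filter fun S : Finset (Fin n) => S.card = 3 ∧ Cl R S ∧ x ∈ S) := by
    ext S
    rw [Finset.mem_filter, Finset.mem_union, Finset.mem_image, Finset.mem_filter, mem_antiOf]
    constructor
    · rintro ⟨h1 | h1, hx⟩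
      · exact Or.inr ⟨Finset.mem_univ _, h1.1, h1.2, hx⟩
      · left
        have h2 : (S.erase x).card = 1 := by
          rw [Finset.card_erase_of_mem hx, h1.1]
        obtain ⟨y, hy⟩ := Finset.card_eq_one.1 h2
        have h3 : S = {x, y} := by rw [← hy, Finset.insert_erase hx]
        have h4 : y ∈ S.erase x := by rw [hy]; simp
        have h5 := (Finset.mem_erase.1 h4).1
        refine ⟨y, Finset.mem_filter.2 ⟨Finset.mem_univ _, h5.symm, fun h6 => h1.2 ?_⟩, h3.symm⟩
        rw [h3]
        exact (cl_pair hs h5.symm).2 h6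
    · rintro (⟨y, hy, rfl⟩ | h1)
      · rw [Finset.mem_filter] at hy
        exact ⟨Or.inr ⟨Finset.card_pair hy.2.1, fun h' => hy.2.2 ((cl_pair hs hy.2.1).1 h')⟩,
          by simp⟩
      · exact ⟨Or.inl ⟨h1.2.1, h1.2.2.1⟩, h1.2.2.2⟩
  rw [e1, Finset.card_union_of_disjoint, Finset.card_image_of_injOn]
  · intro y hy y' hy' e
    rw [Finset.mem_coe, Finset.mem_filter] at hy hy'
    have e2 : y ∈ ({x, y'} : Finset (Fin n)) := by
      have e3 : ({x, y} : Finset (Fin n)) = {x, y'} := e
      rw [← e3]
      simp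
    rw [Finset.mem_insert, Finset.mem_singleton] at e2
    rcases e2 with e2 | e2
    · exact absurd e2.symm hy.2.1
    · exact e2
  · rw [Finset.disjoint_left]
    intro S hS hS'
    rw [Finset.mem_image] at hS
    obtain ⟨y, hy, rfl⟩ := hS
    rw [Finset.mem_filter] at hy hS'
    have := Finset.card_pair hy.2.1
    omega

end graph

/-! ## Incidence structures -/

/-- The vertices: the ends of the pairs in `P`, and further vertices `U`. -/
abbrev Vt (P U : Type) : Type := (P × Bool) ⊕ U

open Classical in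
/-- `Inc x p`: the vertex `x` is joined to both ends of the pair `p`. -/
structure IncS (P U : Type) [Fintype P] [Fintype U] (c : ℕ) where
  Inc : Vt P U → P → Prop
  two : ∀ p b p' b', Inc (Sum.inl (p, b)) p' → ¬ Inc (Sum.inl (p', b')) p
  ind : ∀ x p p' b, Inc x p → Inc x p' → ¬ Inc (Sum.inl (p, b)) p'
  cyc : ∀ p b p' b' p'' b'', Inc (Sum.inl (p, b)) p' → Inc (Sum.inl (p', b')) p'' →
    ¬ Inc (Sum.inl (p'', b'')) p
  disj : ∀ p b p', Inc (Sum.inl (p, b)) p' → ¬ Inc (Sum.inl (p, !b)) p'
  surj : ∀ p, ∃ x, Inc x p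
  outP : ∀ p b, (Finset.univ.filter fun p' => Inc (Sum.inl (p, b)) p').card + 1 = c
  outU : ∀ u, (Finset.univ.filter fun p' => Inc (Sum.inr u) p').card = c

namespace IncS

variable {P U : Type} [Fintype P] [Fintype U] [DecidableEq P] [DecidableEq U] {c : ℕ}
  (S : IncS P U c)

theorem noloop (p : P) (b : Bool) : ¬ S.Inc (Sum.inl (p, b)) p := fun h => S.two p b p b h h

/-- The graph. -/
def R (x y : Vt P U) : Prop :=
  (∃ p b, y = Sum.inl (p, b) ∧ S.Inc x p) ∨ (∃ p b, x = Sum.inl (p, b) ∧ S.Inc y p) ∨
    ∃ p b, x = Sum.inl (p, b) ∧ y = Sum.inl (p, !b)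

theorem R_symm (x y : Vt P U) (h : S.R x y) : S.R y x := by
  rcases h with h | h | ⟨p, b, h1, h2⟩
  · exact Or.inr (Or.inl h)
  · exact Or.inl h
  · exact Or.inr (Or.inr ⟨p, !b, h2, by rw [Bool.not_not]; exact h1⟩)

theorem R_ne (x y : Vt P U) (h : S.R x y) : x ≠ y := by
  rintro rfl
  rcases h with ⟨p, b, rfl, h⟩ | ⟨p, b, rfl, h⟩ | ⟨p, b, h1, h2⟩
  · exact S.noloop p b h
  · exact S.noloop p b h
  · rw [h1] at h2
    have h3 := Sum.inl.inj h2
    have h4 := congrArg Prod.snd h3
    change b = !b at h4
    revert h4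
    cases b <;> decide

theorem R_out (x : Vt P U) (p : P) (b : Bool) (h : S.Inc x p) : S.R x (Sum.inl (p, b)) :=
  Or.inl ⟨p, b, rfl, h⟩

theorem R_par (p : P) (b : Bool) : S.R (Sum.inl (p, b)) (Sum.inl (p, !b)) :=
  Or.inr (Or.inr ⟨p, b, rfl, rfl⟩)

theorem R_edge (x y : Vt P U) (h : S.R x y) : ∃ z, S.R x z ∧ S.R y z := by
  rcases h with ⟨p, b, rfl, h⟩ | ⟨p, b, rfl, h⟩ | ⟨p, b, rfl, rfl⟩
  · exact ⟨Sum.inl (p, !b), S.R_out x p _ h, S.R_par p b⟩
  · exact ⟨Sum.inl (p, !b), S.R_par p b, S.R_out y p _ h⟩
  · obtain ⟨x, hx⟩ := S.surj p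
    exact ⟨x, S.R_symm _ _ (S.R_out x p _ hx), S.R_symm _ _ (S.R_out x p _ hx)⟩

/-- The triangles. -/
def T (x : Vt P U) (p : P) : Finset (Vt P U) := {x, Sum.inl (p, false), Sum.inl (p, true)}

theorem mem_T (x y : Vt P U) (p : P) : y ∈ T x p ↔ y = x ∨ ∃ b, y = Sum.inl (p, b) := by
  unfold T
  rw [Finset.mem_insert, Finset.mem_insert, Finset.mem_singleton]
  constructor
  · rintro (h | h | h)
    · exact Or.inl h
    · exact Or.inr ⟨_, h⟩
    · exact Or.inr ⟨_, h⟩
  · rintro (h | ⟨b, h⟩)
    · exact Or.inl h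
    · cases b
      · exact Or.inr (Or.inl h)
      · exact Or.inr (Or.inr h)

theorem inl_false_ne_true (p : P) : (Sum.inl (p, false) : Vt P U) ≠ Sum.inl (p, true) := by
  intro h
  exact Bool.false_ne_true (congrArg Prod.snd (Sum.inl.inj h))

theorem T_card (x : Vt P U) (p : P) (h : S.Inc x p) : (T x p).card = 3 := by
  have h0 : ∀ b, x ≠ Sum.inl (p, b) := by
    rintro b rfl
    exact S.noloop p b h
  unfold T
  rw [Finset.card_insert_of_notMem, Finset.card_pair (inl_false_ne_true p)]
  rw [Finset.mem_insert, Finset.mem_singleton]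
  rintro (e | e)
  · exact h0 _ e
  · exact h0 _ e

theorem T_cl (x : Vt P U) (p : P) (h : S.Inc x p) : Cl S.R (T x p) :=
  cl_triple S.R_symm (S.R_out x p _ h) (S.R_out x p _ h) (S.R_par p false)

/-- Two adjacent vertices with a common out-pair relation. -/
theorem eq_T_of (x : Vt P U) (p : P) (b : Bool) :
    ({x, Sum.inl (p, b), Sum.inl (p, !b)} : Finset (Vt P U)) = T x p := by
  cases b
  · rfl
  · unfold T
    rw [Finset.pair_comm]
    rfl

/-- A triangle containing a partner pair. -/
theorem tri_par (p : P) (b : Bool) (z : Vt P U) (hz1 : S.R (Sum.inl (p, b)) z)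
    (hz2 : S.R (Sum.inl (p, !b)) z) : S.Inc z p := by
  rcases hz1 with ⟨q, d, rfl, h⟩ | ⟨q, d, h1, h2⟩ | ⟨q, d, h1, h2⟩
  · -- `(p, b) → q`
    rcases hz2 with ⟨q', d', h3, h4⟩ | ⟨q', d', h3, h4⟩ | ⟨q', d', h3, h4⟩
    · have h5 := congrArg Prod.fst (Sum.inl.inj h3)
      change q = q' at h5
      rw [← h5] at h4
      exact absurd h4 (S.disj p b q h)
    · have h5 := congrArg Prod.fst (Sum.inl.inj h3)
      change p = q' at h5
      rw [← h5] at h4
      exact absurd h4 (S.two p b q d h)
    · have h5 := congrArg Prod.fst (Sum.inl.inj h3)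
      have h6 := congrArg Prod.fst (Sum.inl.inj h4)
      change p = q' at h5
      change q = q' at h6
      rw [h6, ← h5] at h
      exact absurd h (S.noloop p b)
  · have h5 := congrArg Prod.fst (Sum.inl.inj h1)
    change p = q at h5
    rw [h5]
    exact h2
  · -- `z` is the partner
    have h5 := congrArg Prod.fst (Sum.inl.inj h1)
    have h6 := congrArg Prod.snd (Sum.inl.inj h1)
    change p = q at h5
    change b = d at h6
    rw [← h5, ← h6] at h2
    exact absurd h2.symm (S.R_ne _ _ hz2)

theorem eq_T (Z : Finset (Vt P U)) (hc : Z.card = 3) (hZ : Cl S.R Z) :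
    ∃ x p, S.Inc x p ∧ Z = T x p := by
  obtain ⟨x, y, z, hxy, hxz, hyz, rfl⟩ := Finset.card_eq_three.1 hc
  have r1 : S.R x y := hZ x (by simp) y (by simp) hxy
  have r2 : S.R y z := hZ y (by simp) z (by simp) hyz
  have r3 : S.R x z := hZ x (by simp) z (by simp) hxz
  -- the partner cases
  have par : ∀ x y z : Vt P U, S.R y z → S.R x z → (∃ p b, x = Sum.inl (p, b) ∧ y = Sum.inl (p, !b)) →
      ∃ u p, S.Inc u p ∧ ({z, x, y} : Finset (Vt P U)) = T u p := by
    rintro x y z h1 h2 ⟨p, b, rfl, rfl⟩
    exact ⟨z, p, S.tri_par p b z h2 h1, eq_T_of z p b⟩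
  by_cases q1 : ∃ p b, x = Sum.inl (p, b) ∧ y = Sum.inl (p, !b)
  · obtain ⟨u, p, h, h'⟩ := par x y z r2 r3 q1
    refine ⟨u, p, h, ?_⟩
    rw [← h']
    ext w
    simp only [Finset.mem_insert, Finset.mem_singleton]
    tauto
  · by_cases q2 : ∃ p b, y = Sum.inl (p, b) ∧ z = Sum.inl (p, !b)
    · obtain ⟨u, p, h, h'⟩ := par y z x (S.R_symm _ _ r3) (S.R_symm _ _ r1) q2
      exact ⟨u, p, h, h'⟩
    · by_cases q3 : ∃ p b, x = Sum.inl (p, b) ∧ z = Sum.inl (p, !b)
      · obtain ⟨u, p, h, h'⟩ := par x z y (S.R_symm _ _ r2) r1 q3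
        refine ⟨u, p, h, ?_⟩
        rw [← h']
        exact Finset.insert_comm _ _ _
      · exfalso
        -- transitive and cyclic triangles do not exist
        have tr : ∀ x : Vt P U, ∀ p b p' b', S.Inc x p → S.Inc x p' →
            S.Inc (Sum.inl (p, b)) p' ∨ S.Inc (Sum.inl (p', b')) p → False := by
          rintro x p b p' b' h1 h2 (h3 | h3)
          · exact S.ind x p p' b h1 h2 h3
          · exact S.ind x p' p b' h2 h1 h3
        rcases r1 with ⟨p, b, rfl, h1⟩ | ⟨p, b, rfl, h1⟩ | h1
        · -- x → y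
          rcases r3 with ⟨p', b', rfl, h3⟩ | ⟨p', b', rfl, h3⟩ | h3
          · -- x → z
            rcases r2 with ⟨p'', b'', e, h2⟩ | ⟨p'', b'', e, h2⟩ | h2
            · have e' := congrArg Prod.fst (Sum.inl.inj e)
              change p' = p'' at e'
              rw [← e'] at h2
              exact tr x p b p' b' h1 h3 (Or.inl h2)
            · have e' := congrArg Prod.fst (Sum.inl.inj e)
              change p = p'' at e'
              rw [← e'] at h2
              exact tr x p b p' b' h1 h3 (Or.inr h2)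
            · exact q2 h2
          · -- z → x, x = (p', b')
            rcases r2 with ⟨p'', b'', rfl, h2⟩ | ⟨p'', b'', e, h2⟩ | h2
            · -- y → z
              exact S.cyc p' b' p b p'' b'' h1 h2 h3
            · -- z → y
              have e' := congrArg Prod.fst (Sum.inl.inj e)
              change p = p'' at e'
              rw [← e'] at h2
              exact S.ind z p' p b' h3 h2 h1
            · exact q2 h2
          · exact q3 h3
        · -- y → x, x = (p, b)
          rcases r3 with ⟨p', b', rfl, h3⟩ | ⟨p', b', e, h3⟩ | h3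
          · -- x → z
            rcases r2 with ⟨p'', b'', e, h2⟩ | ⟨p'', b'', rfl, h2⟩ | h2
            · have e' := congrArg Prod.fst (Sum.inl.inj e)
              change p' = p'' at e'
              rw [← e'] at h2
              exact S.ind y p p' b h1 h2 h3
            · -- z → y : x → z → y → x
              exact S.cyc p b p' b' p'' b'' h3 h2 h1
            · exact q2 h2
          · -- z → x
            have e' := congrArg Prod.fst (Sum.inl.inj e)
            change p = p' at e'
            rw [← e'] at h3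
            rcases r2 with ⟨p'', b'', rfl, h2⟩ | ⟨p'', b'', rfl, h2⟩ | h2
            · -- y → z, y → x, z → x
              exact S.ind y p'' p b'' h2 h1 h3
            · exact S.ind z p'' p b'' h2 h3 h1
            · exact q2 h2
          · exact q3 h3
        · exact q1 h1

theorem T_inj (x x' : Vt P U) (p p' : P) (hx : S.Inc x p) (h : T x p = T x' p') :
    x = x' ∧ p = p' := by
  have hp : p = p' := by
    by_contra hne
    have h1 : ∀ b, (Sum.inl (p, b) : Vt P U) = x' := by
      intro b
      have h2 : (Sum.inl (p, b) : Vt P U) ∈ T x' p' := by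
        rw [← h, mem_T]
        exact Or.inr ⟨b, rfl⟩
      rw [mem_T] at h2
      rcases h2 with h2 | ⟨b', h2⟩
      · exact h2
      · exact absurd (congrArg Prod.fst (Sum.inl.inj h2)) hne
    exact inl_false_ne_true p ((h1 false).trans (h1 true).symm)
  refine ⟨?_, hp⟩
  have h2 : x ∈ T x' p' := by
    rw [← h, mem_T]
    exact Or.inl rfl
  rw [mem_T] at h2
  rcases h2 with h2 | ⟨b, h2⟩
  · exact h2
  · rw [h2, ← hp] at hx
    exact absurd hx (S.noloop p b)

open Classical in
/-- The out-neighbours. -/
noncomputable def outS (x : Vt P U) : Finset (Vt P U) :=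
  ((Finset.univ.filter fun p => S.Inc x p) ×ˢ (Finset.univ : Finset Bool)).map
    ⟨Sum.inl, Sum.inl_injective⟩

open Classical in
theorem mem_outS (x y : Vt P U) : y ∈ S.outS x ↔ ∃ p b, y = Sum.inl (p, b) ∧ S.Inc x p := by
  unfold outS
  rw [Finset.mem_map]
  constructor
  · rintro ⟨⟨p, b⟩, h, rfl⟩
    rw [Finset.mem_product, Finset.mem_filter] at h
    exact ⟨p, b, rfl, h.1.2⟩
  · rintro ⟨p, b, rfl, h⟩
    refine ⟨(p, b), ?_, rfl⟩
    rw [Finset.mem_product, Finset.mem_filter]
    exact ⟨⟨Finset.mem_univ _, h⟩, Finset.mem_univ _⟩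

open Classical in
theorem card_outS (x : Vt P U) :
    (S.outS x).card = (Finset.univ.filter fun p => S.Inc x p).card * 2 := by
  unfold outS
  rw [Finset.card_map, Finset.card_product, Finset.card_univ, Fintype.card_bool]

open Classical in
/-- The degree plus one. -/
theorem card_nonadj (x : Vt P U) :
    (Finset.univ.filter fun y => x ≠ y ∧ ¬ S.R x y).card +
      (insert x (Finset.univ.filter fun y => S.R x y)).card = Fintype.card (Vt P U) := by
  have h2 := Finset.card_filter_add_card_filter_not (s := (Finset.univ : Finset (Vt P U)))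
    (fun y => x ≠ y ∧ ¬ S.R x y)
  rw [Finset.card_univ] at h2
  rw [← h2]
  congr 2
  ext y
  rw [Finset.mem_insert, Finset.mem_filter, Finset.mem_filter]
  constructor
  · rintro (rfl | h)
    · exact ⟨Finset.mem_univ _, fun h => h.1 rfl⟩
    · exact ⟨Finset.mem_univ _, fun h' => h'.2 h.2⟩
  · rintro ⟨_, h⟩
    by_cases e : x = y
    · exact Or.inl e.symm
    · right
      refine ⟨Finset.mem_univ _, ?_⟩
      by_contra h'
      exact h ⟨e, h'⟩

open Classical in
theorem card_tri (x : Vt P U) :
    (Finset.univ.filter fun Z : Finset (Vt P U) => Z.card = 3 ∧ Cl S.R Z ∧ x ∈ Z).card =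
    (Finset.univ.filter fun q : Vt P U × P => S.Inc q.1 q.2 ∧ x ∈ T q.1 q.2).card := by
  have h1 : (Finset.univ.filter fun Z : Finset (Vt P U) => Z.card = 3 ∧ Cl S.R Z ∧ x ∈ Z) =
      (Finset.univ.filter fun q : Vt P U × P => S.Inc q.1 q.2 ∧ x ∈ T q.1 q.2).image
        fun q => T q.1 q.2 := by
    ext Z
    rw [Finset.mem_filter, Finset.mem_image]
    constructor
    · rintro ⟨_, h, h', hx⟩
      obtain ⟨u, p, hI, rfl⟩ := S.eq_T Z h h'
      exact ⟨(u, p), Finset.mem_filter.2 ⟨Finset.mem_univ _, hI, hx⟩, rfl⟩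
    · rintro ⟨q, hq, rfl⟩
      have hq' := (Finset.mem_filter.1 hq).2
      exact ⟨Finset.mem_univ _, S.T_card _ _ hq'.1, S.T_cl _ _ hq'.1, hq'.2⟩
  rw [h1, Finset.card_image_of_injOn]
  rintro ⟨u, p⟩ hq ⟨u', p'⟩ hq' h
  rw [Finset.mem_coe, Finset.mem_filter] at hq hq'
  obtain ⟨h3, h4⟩ := S.T_inj u u' p p' hq.2.1 h
  rw [h3, h4]

open Classical in
/-- Regularity at every vertex. -/
theorem count (x : Vt P U) :
    (Finset.univ.filter fun y => x ≠ y ∧ ¬ S.R x y).card +
    (Finset.univ.filter fun Z : Finset (Vt P U) => Z.card = 3 ∧ Cl S.R Z ∧ x ∈ Z).card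
      + (c + 1) = Fintype.card (Vt P U) := by
  have h1 := S.card_nonadj x
  have h2 := S.card_tri x
  have hO := S.card_outS x
  rcases x with ⟨p, b⟩ | u
  · -- paired vertex
    set x : Vt P U := Sum.inl (p, b) with hx
    have ho := S.outP p b
    rw [← hx] at ho
    set inn : Finset (Vt P U) := Finset.univ.filter fun a => S.Inc a p with hinn
    have e1 : insert x (Finset.univ.filter fun y => S.R x y) =
        S.outS x ∪ (inn ∪ {x, Sum.inl (p, !b)}) := by
      ext y
      rw [Finset.mem_insert, Finset.mem_filter, Finset.mem_union, mem_outS, Finset.mem_union,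
        hinn, Finset.mem_filter, Finset.mem_insert, Finset.mem_singleton]
      constructor
      · rintro (h | ⟨_, h | ⟨q, d, h, h'⟩ | ⟨q, d, h, h'⟩⟩)
        · exact Or.inr (Or.inr (Or.inl h))
        · exact Or.inl h
        · have e := congrArg Prod.fst (Sum.inl.inj (hx.symm.trans h))
          change p = q at e
          rw [← e] at h'
          exact Or.inr (Or.inl ⟨Finset.mem_univ _, h'⟩)
        · have e := Sum.inl.inj (hx.symm.trans h)
          have e1 := congrArg Prod.fst e
          have e2 := congrArg Prod.snd e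
          change p = q at e1
          change b = d at e2
          rw [← e1, ← e2] at h'
          exact Or.inr (Or.inr (Or.inr h'))
      · rintro (h | h | h | h)
        · exact Or.inr ⟨Finset.mem_univ _, Or.inl h⟩
        · exact Or.inr ⟨Finset.mem_univ _, Or.inr (Or.inl ⟨p, b, rfl, h.2⟩)⟩
        · exact Or.inl h
        · exact Or.inr ⟨Finset.mem_univ _, Or.inr (Or.inr ⟨p, b, rfl, h⟩)⟩
    have e2 : (insert x (Finset.univ.filter fun y => S.R x y)).card =
        (S.outS x).card + (inn.card + 2) := by
      rw [e1, Finset.card_union_of_disjoint, Finset.card_union_of_disjoint, Finset.card_pair]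
      · exact (S.R_ne _ _ (S.R_par p b))
      · rw [Finset.disjoint_left]
        intro y hy hy'
        rw [hinn, Finset.mem_filter] at hy
        rw [Finset.mem_insert, Finset.mem_singleton] at hy'
        rcases hy' with rfl | rfl
        · exact S.noloop p b hy.2
        · exact S.noloop p _ hy.2
      · rw [Finset.disjoint_left]
        intro y hy hy'
        rw [mem_outS] at hy
        obtain ⟨q, d, rfl, h⟩ := hy
        rw [Finset.mem_union, hinn, Finset.mem_filter, Finset.mem_insert,
          Finset.mem_singleton] at hy'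
        rcases hy' with hy' | hy' | hy'
        · exact S.two p b q d h hy'.2
        · have e := congrArg Prod.fst (Sum.inl.inj hy')
          change q = p at e
          rw [e] at h
          exact S.noloop p b h
        · have e := congrArg Prod.fst (Sum.inl.inj hy')
          change q = p at e
          rw [e] at h
          exact S.noloop p b h
    have e3 : (Finset.univ.filter fun q : Vt P U × P => S.Inc q.1 q.2 ∧ x ∈ T q.1 q.2) =
        (({x} : Finset (Vt P U)) ×ˢ (Finset.univ.filter fun p => S.Inc x p)) ∪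
        (inn ×ˢ ({p} : Finset P)) := by
      ext q
      rw [Finset.mem_filter, Finset.mem_union, Finset.mem_product, Finset.mem_product,
        Finset.mem_singleton, Finset.mem_filter, Finset.mem_singleton, mem_T, hinn,
        Finset.mem_filter]
      constructor
      · rintro ⟨_, hI, h | ⟨d, h⟩⟩
        · exact Or.inl ⟨h.symm, Finset.mem_univ _, by rw [h]; exact hI⟩
        · have e := congrArg Prod.fst (Sum.inl.inj (hx.symm.trans h))
          change p = q.2 at e
          exact Or.inr ⟨⟨Finset.mem_univ _, by rw [e]; exact hI⟩, e.symm⟩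
      · rintro (⟨h, h'⟩ | ⟨h, h'⟩)
        · exact ⟨Finset.mem_univ _, by rw [h]; exact h'.2, Or.inl h.symm⟩
        · exact ⟨Finset.mem_univ _, by rw [h']; exact h.2, Or.inr ⟨b, by rw [h']⟩⟩
    have e4 : (Finset.univ.filter fun q : Vt P U × P => S.Inc q.1 q.2 ∧ x ∈ T q.1 q.2).card =
        (Finset.univ.filter fun p => S.Inc x p).card + inn.card := by
      rw [e3, Finset.card_union_of_disjoint, Finset.card_product, Finset.card_product,
        Finset.card_singleton, Finset.card_singleton, one_mul, mul_one]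
      rw [Finset.disjoint_left]
      intro q hq hq'
      rw [Finset.mem_product, Finset.mem_singleton, Finset.mem_filter] at hq
      rw [Finset.mem_product, Finset.mem_singleton] at hq'
      have h3 := hq.2.2
      rw [hq'.2] at h3
      exact S.noloop p b h3
    omega
  · -- unpaired vertex
    set x : Vt P U := Sum.inr u with hx
    have ho := S.outU u
    rw [← hx] at ho
    have e1 : insert x (Finset.univ.filter fun y => S.R x y) = insert x (S.outS x) := by
      ext y
      rw [Finset.mem_insert, Finset.mem_filter, Finset.mem_insert, mem_outS]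
      constructor
      · rintro (h | ⟨_, h | ⟨q, d, h, h'⟩ | ⟨q, d, h, h'⟩⟩)
        · exact Or.inl h
        · exact Or.inr h
        · exact absurd (hx.symm.trans h) Sum.inr_ne_inl
        · exact absurd (hx.symm.trans h) Sum.inr_ne_inl
      · rintro (h | h)
        · exact Or.inl h
        · exact Or.inr ⟨Finset.mem_univ _, Or.inl h⟩
    have e2 : (insert x (Finset.univ.filter fun y => S.R x y)).card = (S.outS x).card + 1 := by
      rw [e1, Finset.card_insert_of_notMem]
      rw [mem_outS]
      rintro ⟨p, b, h, _⟩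
      exact absurd (hx.symm.trans h) Sum.inr_ne_inl
    have e3 : (Finset.univ.filter fun q : Vt P U × P => S.Inc q.1 q.2 ∧ x ∈ T q.1 q.2) =
        (({x} : Finset (Vt P U)) ×ˢ (Finset.univ.filter fun p => S.Inc x p)) := by
      ext q
      rw [Finset.mem_filter, Finset.mem_product, Finset.mem_singleton, Finset.mem_filter, mem_T]
      constructor
      · rintro ⟨_, hI, h | ⟨d, h⟩⟩
        · exact ⟨h.symm, Finset.mem_univ _, by rw [h]; exact hI⟩
        · exact absurd (hx.symm.trans h) Sum.inr_ne_inl
      · rintro ⟨h, h'⟩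
        exact ⟨Finset.mem_univ _, by rw [h]; exact h'.2, Or.inl h.symm⟩
    have e4 : (Finset.univ.filter fun q : Vt P U × P => S.Inc q.1 q.2 ∧ x ∈ T q.1 q.2).card =
        (Finset.univ.filter fun p => S.Inc x p).card := by
      rw [e3, Finset.card_product, Finset.card_singleton, one_mul]
    omega

include S in
open Classical in
/-- The antichain of an incidence structure. -/
theorem antichain (n : ℕ) (hn : Fintype.card (Vt P U) = n) (hn2 : 2 ≤ n) :
    ∃ A : Finset (Finset (Fin n)),
      IsMax23 n A ∧ IsReg n A (n - (c + 1)) ∧ MatchingType n A := by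
  let φ : Vt P U ≃ Fin n := Fintype.equivFinOfCardEq hn
  let R : Fin n → Fin n → Prop := fun x y => S.R (φ.symm x) (φ.symm y)
  have hs : ∀ x y, R x y → R y x := fun x y h => S.R_symm _ _ h
  have hi : ∀ x y, R x y → x ≠ y := fun x y h e => S.R_ne _ _ h (by rw [e])
  have he : ∀ x y, R x y → ∃ z, R x z ∧ R y z := by
    intro x y h
    obtain ⟨z, h1, h2⟩ := S.R_edge _ _ h
    refine ⟨φ z, ?_, ?_⟩
    · change S.R _ (φ.symm (φ z))
      rw [Equiv.symm_apply_apply]
      exact h1
    · change S.R _ (φ.symm (φ z))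
      rw [Equiv.symm_apply_apply]
      exact h2
  have hcl : ∀ Z : Finset (Fin n), Cl R Z → Cl S.R (Z.map φ.symm.toEmbedding) := by
    intro Z hZ a ha b hb hab
    rw [Finset.mem_map] at ha hb
    obtain ⟨a', ha', rfl⟩ := ha
    obtain ⟨b', hb', rfl⟩ := hb
    exact hZ a' ha' b' hb' (fun e => hab (by rw [e]))
  have hcl' : ∀ Z : Finset (Vt P U), Cl S.R Z → Cl R (Z.map φ.toEmbedding) := by
    intro Z hZ a ha b hb hab
    rw [Finset.mem_map] at ha hb
    obtain ⟨a', ha', rfl⟩ := ha
    obtain ⟨b', hb', rfl⟩ := hb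
    change S.R (φ.symm (φ a')) (φ.symm (φ b'))
    rw [Equiv.symm_apply_apply, Equiv.symm_apply_apply]
    exact hZ a' ha' b' hb' (fun e => hab (by rw [e]))
  have hmap1 : ∀ Z : Finset (Fin n), (Z.map φ.symm.toEmbedding).map φ.toEmbedding = Z := by
    intro Z
    ext a
    simp
  have hmap2 : ∀ Z : Finset (Vt P U), (Z.map φ.toEmbedding).map φ.symm.toEmbedding = Z := by
    intro Z
    ext a
    simp
  refine ⟨antiOf R, isMax23_of_graph hs hi he hn2, isReg_of_graph hs _ ?_, ?_⟩
  · intro x
    have h1 : (Finset.univ.filter fun y => x ≠ y ∧ ¬ R x y).card =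
        (Finset.univ.filter fun y => φ.symm x ≠ y ∧ ¬ S.R (φ.symm x) y).card := by
      refine Finset.card_nbij' φ.symm φ ?_ ?_ ?_ ?_
      · intro y hy
        rw [Finset.mem_coe, Finset.mem_filter] at hy ⊢
        exact ⟨Finset.mem_univ _, fun e => hy.2.1 (φ.symm.injective e), hy.2.2⟩
      · intro y hy
        rw [Finset.mem_coe, Finset.mem_filter] at hy ⊢
        refine ⟨Finset.mem_univ _, fun e => hy.2.1 ?_, fun h => hy.2.2 ?_⟩
        · rw [e, Equiv.symm_apply_apply]
        · change S.R _ (φ.symm (φ y)) at h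
          rw [Equiv.symm_apply_apply] at h
          exact h
      · intro y _
        exact Equiv.apply_symm_apply _ _
      · intro y _
        exact Equiv.symm_apply_apply _ _
    have h2 : (Finset.univ.filter fun Z : Finset (Fin n) => Z.card = 3 ∧ Cl R Z ∧ x ∈ Z).card =
        (Finset.univ.filter fun Z : Finset (Vt P U) =>
          Z.card = 3 ∧ Cl S.R Z ∧ φ.symm x ∈ Z).card := by
      refine Finset.card_nbij' (fun Z => Z.map φ.symm.toEmbedding) (fun Z => Z.map φ.toEmbedding)
        ?_ ?_ ?_ ?_
      · intro Z hZ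
        rw [Finset.mem_coe, Finset.mem_filter] at hZ ⊢
        refine ⟨Finset.mem_univ _, ?_, hcl Z hZ.2.2.1, ?_⟩
        · rw [Finset.card_map]
          exact hZ.2.1
        · exact Finset.mem_map_of_mem _ hZ.2.2.2
      · intro Z hZ
        rw [Finset.mem_coe, Finset.mem_filter] at hZ ⊢
        refine ⟨Finset.mem_univ _, ?_, hcl' Z hZ.2.2.1, ?_⟩
        · rw [Finset.card_map]
          exact hZ.2.1
        · have := Finset.mem_map_of_mem φ.toEmbedding hZ.2.2.2
          change φ (φ.symm x) ∈ _ at this
          rw [Equiv.apply_symm_apply] at this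
          exact this
      · intro Z _
        exact hmap1 Z
      · intro Z _
        exact hmap2 Z
    have h3 := S.count (φ.symm x)
    rw [h1, h2]
    omega
  · refine ⟨Finset.univ.image fun p : P =>
      ({φ (Sum.inl (p, false)), φ (Sum.inl (p, true))} : Finset (Fin n)), ?_, ?_, ?_⟩
    · intro e he
      rw [Finset.mem_image] at he
      obtain ⟨p, _, rfl⟩ := he
      rw [Finset.card_pair]
      intro e
      exact inl_false_ne_true p (φ.injective e)
    · intro e he f hf hef
      rw [Finset.mem_image] at he hf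
      obtain ⟨p, _, rfl⟩ := he
      obtain ⟨q, _, rfl⟩ := hf
      have key : ∀ b b' : Bool, φ (Sum.inl (p, b)) ≠ φ (Sum.inl (q, b')) := by
        intro b b' e
        have h1 := congrArg Prod.fst (Sum.inl.inj (φ.injective e))
        change p = q at h1
        exact hef (by rw [h1])
      rw [Finset.disjoint_left]
      intro a ha hb
      rw [Finset.mem_insert, Finset.mem_singleton] at ha hb
      rcases ha with rfl | rfl <;> rcases hb with h | h
      · exact key _ _ h
      · exact key _ _ h
      · exact key _ _ h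
      · exact key _ _ h
    · intro Z hZ hZc
      rw [mem_antiOf] at hZ
      rcases hZ with h | h
      · obtain ⟨u, p, _, huk⟩ := S.eq_T (Z.map φ.symm.toEmbedding)
          (by rw [Finset.card_map]; exact hZc) (hcl Z h.2)
        refine ⟨_, Finset.mem_image.2 ⟨p, Finset.mem_univ _, rfl⟩, ?_⟩
        have key : ∀ b : Bool, φ (Sum.inl (p, b)) ∈ Z := by
          intro b
          rw [← hmap1 Z, huk]
          refine Finset.mem_map_of_mem φ.toEmbedding ?_
          rw [mem_T]
          exact Or.inr ⟨b, rfl⟩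
        intro a ha
        rw [Finset.mem_insert, Finset.mem_singleton] at ha
        rcases ha with rfl | rfl
        · exact key _
        · exact key _
      · omega

end IncS

end Pool.Agent.Helper66.RMP
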