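import Pool.Agent.Helper8.RM.Defs

/-!
MP_8b97a7_co: maximal (2,3)-antichains of matching type.
-/

set_option autoImplicit false

namespace Pool.Agent.Helper66.RMP

/-- `A` is of matching type: there are pairwise disjoint pairs such that every triple of `A`
contains one of them. -/
def MatchingType (n : ℕ) (A : Finset (Finset (Fin n))) : Prop :=
  ∃ M : Finset (Finset (Fin n)), (∀ e ∈ M, e.card = 2) ∧
    (∀ e ∈ M, ∀ f ∈ M, e ≠ f → Disjoint e f) ∧ ∀ T ∈ A, T.card = 3 → ∃ e ∈ M, e ⊆ T

end Pool.Agent.Helper66.RMP
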