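import Pool.Agent.Helper66.RMP.Match
import Pool.Agent.Helper66.RMP.Defs

/-!
MP_8b97a7_co, matching type: from maximal (2,3)-antichains to graphs with a matching.
-/

set_option autoImplicit false

namespace Pool.Agent.Helper66.RMP

open Finset Pool.Agent.Helper8.RM

variable {n : ℕ}

/-- The graph of an antichain. -/
def adj (A : Finset (Finset (Fin n))) (x y : Fin n) : Prop :=
  y ≠ x ∧ ({x, y} : Finset (Fin n)) ∉ A

theorem adj_symm (A : Finset (Finset (Fin n))) (x y : Fin n) (h : adj A x y) : adj A y x := by
  refine ⟨h.1.symm, ?_⟩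
  rw [Finset.pair_comm]
  exact h.2

theorem triple_eq {S : Finset (Fin n)} {x y : Fin n} (hxy : x ≠ y) (hx : x ∈ S) (hy : y ∈ S)
    (hS : S.card = 3) : ∃ z, z ≠ x ∧ z ≠ y ∧ S = {x, y, z} := by
  have h1 : ((S.erase x).erase y).card = 1 := by
    rw [Finset.card_erase_of_mem (Finset.mem_erase.2 ⟨hxy.symm, hy⟩), Finset.card_erase_of_mem hx,
      hS]
  obtain ⟨z, hz⟩ := Finset.card_eq_one.1 h1
  have h2 : z ∈ (S.erase x).erase y := by rw [hz]; exact Finset.mem_singleton_self z
  rw [Finset.mem_erase, Finset.mem_erase] at h2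
  refine ⟨z, h2.2.1, h2.1, ?_⟩
  rw [← hz, Finset.insert_erase (Finset.mem_erase.2 ⟨hxy.symm, hy⟩), Finset.insert_erase hx]

theorem card_triple {x y z : Fin n} (h1 : x ≠ y) (h2 : x ≠ z) (h3 : y ≠ z) :
    ({x, y, z} : Finset (Fin n)).card = 3 := by
  rw [Finset.card_insert_of_notMem (by simp [h1, h2]), Finset.card_pair h3]

/-- A triangle of the graph is a member. -/
theorem tri_mem {A : Finset (Finset (Fin n))} (hA : IsMax23 n A) {x y z : Fin n}
    (h1 : adj A x y) (h2 : adj A y z) (h3 : adj A x z) : ({x, y, z} : Finset (Fin n)) ∈ A := by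
  by_contra hcon
  obtain ⟨S, hS, hS'⟩ := hA.2.2 _ hcon
  have hc := card_triple h1.1.symm h3.1.symm h2.1.symm
  rcases hS' with h | h
  · rcases hA.1 S hS with hc' | hc'
    · have := Finset.card_le_card h
      omega
    · have := Finset.eq_of_subset_of_card_le h (by omega)
      exact hcon (this ▸ hS)
  · rcases hA.1 S hS with hc' | hc'
    · obtain ⟨a, b, hab, rfl⟩ := Finset.card_eq_two.1 hc'
      have ha : a ∈ ({x, y, z} : Finset (Fin n)) := h (by simp)
      have hb : b ∈ ({x, y, z} : Finset (Fin n)) := h (by simp)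
      simp only [Finset.mem_insert, Finset.mem_singleton] at ha hb
      have key : ∀ u v : Fin n, ({u, v} : Finset (Fin n)) ∈ A → ¬ adj A u v := fun u v h h' => h'.2 h
      have key' : ∀ u v : Fin n, ({u, v} : Finset (Fin n)) ∈ A → ¬ adj A v u := fun u v h h' =>
        (adj_symm A v u h').2 h
      rcases ha with rfl | rfl | rfl <;> rcases hb with rfl | rfl | rfl
      · exact hab rfl
      · exact key _ _ hS h1
      · exact key _ _ hS h3
      · exact key' _ _ hS h1
      · exact hab rfl
      · exact key _ _ hS h2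
      · exact key' _ _ hS h3
      · exact key' _ _ hS h2
      · exact hab rfl
    · have := Finset.eq_of_subset_of_card_le h (by omega)
      exact hcon (this ▸ hS)

/-- Two elements of a triple which is a member are adjacent. -/
theorem adj_of_mem {A : Finset (Finset (Fin n))} (hA : IsMax23 n A) {S : Finset (Fin n)}
    (hS : S ∈ A) (hc : S.card = 3) {x y : Fin n} (hx : x ∈ S) (hy : y ∈ S) (hxy : y ≠ x) :
    adj A x y := by
  refine ⟨hxy, fun h => ?_⟩
  refine hA.2.1 _ h S hS ?_ ?_
  · intro e
    rw [← e, Finset.card_pair hxy.symm] at hc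
    omega
  · intro z hz
    rw [Finset.mem_insert, Finset.mem_singleton] at hz
    rcases hz with rfl | rfl
    · exact hx
    · exact hy

/-- Every edge is in a triangle. -/
theorem edge_tri {A : Finset (Finset (Fin n))} (hA : IsMax23 n A) {x y : Fin n}
    (h : adj A x y) : ∃ z, adj A x z ∧ adj A y z := by
  obtain ⟨S, hS, hS'⟩ := hA.2.2 _ h.2
  rcases hS' with h' | h'
  · have hx : x ∈ S := h' (by simp)
    have hy : y ∈ S := h' (by simp)
    rcases hA.1 S hS with hc | hc
    · exfalso
      have := Finset.eq_of_subset_of_card_le h' (by rw [Finset.card_pair h.1.symm, hc])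
      exact h.2 (this ▸ hS)
    · obtain ⟨z, hz1, hz2, hz3⟩ := triple_eq h.1.symm hx hy hc
      have hz : z ∈ S := by rw [hz3]; simp
      exact ⟨z, adj_of_mem hA hS hc hx hz hz1, adj_of_mem hA hS hc hy hz hz2⟩
  · exfalso
    have hc : 2 ≤ S.card := by
      rcases hA.1 S hS with hc | hc <;> omega
    have := Finset.eq_of_subset_of_card_le h' (by rw [Finset.card_pair h.1.symm]; exact hc)
    exact h.2 (this ▸ hS)

open Classical in
/-- The neighbourhoods. -/
noncomputable def nb (A : Finset (Finset (Fin n))) (x : Fin n) : Finset (Fin n) :=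
  Finset.univ.filter fun y => adj A x y

open Classical in
theorem mem_nb (A : Finset (Finset (Fin n))) (x y : Fin n) : y ∈ nb A x ↔ adj A x y := by
  unfold nb
  rw [Finset.mem_filter]
  exact ⟨fun h => h.2, fun h => ⟨Finset.mem_univ _, h⟩⟩

open Classical in
/-- Regularity in terms of degrees and codegrees. -/
theorem reg_ineq {A : Finset (Finset (Fin n))} (hA : IsMax23 n A) {r : ℕ} (hr : IsReg n A r)
    (x : Fin n) : 2 * ((n : ℤ) - 1 - r) ≤
      2 * ((nb A x).card : ℤ) - ∑ u ∈ nb A x, ((nb A x ∩ nb A u).card : ℤ) := by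
  -- the members containing `x`, by size
  set P2 := A.filter fun S => x ∈ S ∧ S.card = 2 with hP2
  set P3 := A.filter fun S => x ∈ S ∧ S.card = 3 with hP3
  have h1 : P2.card + P3.card ≤ r := by
    rw [← hr x, ← Finset.card_union_of_disjoint]
    · refine Finset.card_le_card ?_
      intro S hS
      rw [Finset.mem_union, hP2, hP3, Finset.mem_filter, Finset.mem_filter] at hS
      rw [Finset.mem_filter]
      rcases hS with hS | hS
      · exact ⟨hS.1, hS.2.1⟩
      · exact ⟨hS.1, hS.2.1⟩
    · rw [Finset.disjoint_left]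
      intro S h2 h3
      rw [hP2, Finset.mem_filter] at h2
      rw [hP3, Finset.mem_filter] at h3
      omega
  -- the non-neighbours
  have h2 : n - 1 ≤ (nb A x).card + P2.card := by
    have e1 : (Finset.univ.erase x : Finset (Fin n)).card = n - 1 := by
      rw [Finset.card_erase_of_mem (Finset.mem_univ _), Finset.card_univ, Fintype.card_fin]
    have e2 : ((Finset.univ.erase x).filter fun y => ({x, y} : Finset (Fin n)) ∈ A).card ≤
        P2.card := by
      refine Finset.card_le_card_of_injOn (fun y => ({x, y} : Finset (Fin n))) ?_ ?_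
      · intro y hy
        rw [Finset.mem_coe, Finset.mem_filter, Finset.mem_erase] at hy
        rw [Finset.mem_coe, hP2, Finset.mem_filter]
        exact ⟨hy.2, by simp, Finset.card_pair hy.1.1.symm⟩
      · intro y hy y' hy' e
        rw [Finset.mem_coe, Finset.mem_filter, Finset.mem_erase] at hy hy'
        have e3 : y ∈ ({x, y'} : Finset (Fin n)) := by
          have e4 : y ∈ ({x, y} : Finset (Fin n)) := by simp
          have e5 : ({x, y} : Finset (Fin n)) = {x, y'} := e
          rw [e5] at e4
          exact e4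
        rw [Finset.mem_insert, Finset.mem_singleton] at e3
        rcases e3 with e3 | e3
        · exact absurd e3 hy.1.1
        · exact e3
    have e3 : (Finset.univ.erase x : Finset (Fin n)) ⊆
        nb A x ∪ ((Finset.univ.erase x).filter fun y => ({x, y} : Finset (Fin n)) ∈ A) := by
      intro y hy
      rw [Finset.mem_union, mem_nb, Finset.mem_filter]
      by_cases e4 : ({x, y} : Finset (Fin n)) ∈ A
      · exact Or.inr ⟨hy, e4⟩
      · exact Or.inl ⟨(Finset.mem_erase.1 hy).1, e4⟩
    have e4 := Finset.card_le_card e3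
    have e5 := Finset.card_union_le (nb A x)
      ((Finset.univ.erase x).filter fun y => ({x, y} : Finset (Fin n)) ∈ A)
    omega
  -- the ordered pairs spanning a triangle with `x`
  have h3 : ∑ u ∈ nb A x, (nb A x ∩ nb A u).card ≤ 2 * P3.card := by
    rw [← Finset.card_sigma]
    refine Finset.card_le_mul_card_image_of_maps_to (f := fun p => ({x, p.1, p.2} : Finset (Fin n)))
      ?_ 2 ?_
    · rintro ⟨u, v⟩ hp
      rw [Finset.mem_sigma, Finset.mem_inter, mem_nb, mem_nb, mem_nb] at hp
      rw [hP3, Finset.mem_filter]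
      exact ⟨tri_mem hA hp.1 hp.2.2 hp.2.1, by simp,
        card_triple hp.1.1.symm hp.2.1.1.symm hp.2.2.1.symm⟩
    · intro S hS
      rw [hP3, Finset.mem_filter] at hS
      have e1 : (S.erase x).card = 2 := by
        rw [Finset.card_erase_of_mem hS.2.1, hS.2.2]
      rw [← e1]
      refine Finset.card_le_card_of_injOn (fun p => p.1) ?_ ?_
      · rintro ⟨u, v⟩ hp
        rw [Finset.mem_coe, Finset.mem_filter, Finset.mem_sigma, mem_nb] at hp
        rw [Finset.mem_coe, Finset.mem_erase]
        refine ⟨hp.1.1.1, ?_⟩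
        rw [← hp.2]
        simp
      · rintro ⟨u, v⟩ hp ⟨u', v'⟩ hp' e
        rw [Finset.mem_coe, Finset.mem_filter, Finset.mem_sigma, Finset.mem_inter, mem_nb, mem_nb,
          mem_nb] at hp hp'
        change u = u' at e
        subst e
        have e2 : v ∈ ({x, u, v'} : Finset (Fin n)) := by
          have e3 : v ∈ ({x, u, v} : Finset (Fin n)) := by simp
          have e4 : ({x, u, v} : Finset (Fin n)) = {x, u, v'} := hp.2.trans hp'.2.symm
          rw [e4] at e3
          exact e3
        rw [Finset.mem_insert, Finset.mem_insert, Finset.mem_singleton] at e2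
        rcases e2 with e2 | e2 | e2
        · exact absurd e2 hp.1.2.1.1
        · exact absurd e2 hp.1.2.2.1
        · rw [e2]
  have h3' : ∑ u ∈ nb A x, ((nb A x ∩ nb A u).card : ℤ) ≤ 2 * (P3.card : ℤ) := by
    exact_mod_cast h3
  have hn : 1 ≤ n := by
    have := x.2
    omega
  have h2' : (n : ℤ) - 1 ≤ ((nb A x).card : ℤ) + (P2.card : ℤ) := by
    have : ((n - 1 : ℕ) : ℤ) ≤ (((nb A x).card + P2.card : ℕ) : ℤ) := by exact_mod_cast h2
    push_cast [hn] at this
    exact this
  have h1' : (P2.card : ℤ) + (P3.card : ℤ) ≤ (r : ℤ) := by exact_mod_cast h1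
  linarith

open Classical in
/-- The lower bound. -/
theorem lower {A : Finset (Finset (Fin n))} (hA : IsMax23 n A) {r : ℕ} (hr : IsReg n A r)
    (hM : MatchingType n A) : 13 * n ≤ 14 * (r + 2) := by
  obtain ⟨M, hM2, hMd, hMT⟩ := hM
  by_cases hc : n ≤ r + 2
  · omega
  · -- the partner
    have huniq : ∀ x y y' : Fin n, y ≠ x → y' ≠ x → ({x, y} : Finset (Fin n)) ∈ M →
        ({x, y'} : Finset (Fin n)) ∈ M → y = y' := by
      intro x y y' hy hy' h h'
      by_contra hne
      have h1 : ({x, y} : Finset (Fin n)) ≠ {x, y'} := by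
        intro e
        have h2 : y ∈ ({x, y'} : Finset (Fin n)) := by rw [← e]; simp
        rw [Finset.mem_insert, Finset.mem_singleton] at h2
        rcases h2 with h2 | h2
        · exact hy h2
        · exact hne h2
      have h2 := hMd _ h _ h' h1
      rw [Finset.disjoint_left] at h2
      exact h2 (a := x) (by simp) (by simp)
    have hex : ∀ x : Fin n, ∃ y : Fin n, (y ≠ x ∧ ({x, y} : Finset (Fin n)) ∈ M ∧ adj A x y) ∨
        (y = x ∧ ∀ z, z ≠ x → ({x, z} : Finset (Fin n)) ∈ M → ¬ adj A x z) := by
      intro x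
      by_cases h : ∃ y, y ≠ x ∧ ({x, y} : Finset (Fin n)) ∈ M ∧ adj A x y
      · obtain ⟨y, hy⟩ := h
        exact ⟨y, Or.inl hy⟩
      · push Not at h
        exact ⟨x, Or.inr ⟨rfl, h⟩⟩
    choose s hs using hex
    have hs1 : ∀ x, s x ≠ x → ({x, s x} : Finset (Fin n)) ∈ M ∧ adj A x (s x) := by
      intro x hx
      rcases hs x with h | h
      · exact h.2
      · exact absurd h.1 hx
    have hs2 : ∀ x y, y ≠ x → ({x, y} : Finset (Fin n)) ∈ M → adj A x y → s x = y := by
      intro x y hy hxy hadj
      rcases hs x with h | h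
      · exact huniq x (s x) y h.1 hy h.2.1 hxy
      · exact absurd hadj (h.2 y hy hxy)
    have hss : ∀ x, s (s x) = x := by
      intro x
      by_cases hx : s x = x
      · rw [hx, hx]
      · obtain ⟨h1, h2⟩ := hs1 x hx
        refine hs2 (s x) x (Ne.symm hx) ?_ (adj_symm A _ _ h2)
        rw [Finset.pair_comm]
        exact h1
    let G : MG (Fin n) ((n : ℤ) - 1 - r) :=
      { N := nb A
        symm := fun x y h => by
          rw [mem_nb] at h ⊢
          exact adj_symm A _ _ h
        irr := fun x h => by
          rw [mem_nb] at h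
          exact h.1 rfl
        s := s
        ss := hss
        sN := fun x hx => by
          rw [mem_nb]
          exact (hs1 x hx).2
        tri := fun x u v hu hv huv => by
          rw [mem_nb] at hu hv huv
          have hT := tri_mem hA hu huv hv
          have hTc := card_triple hu.1.symm hv.1.symm huv.1.symm
          obtain ⟨e, he, heT⟩ := hMT _ hT hTc
          obtain ⟨p, q, hpq, rfl⟩ := Finset.card_eq_two.1 (hM2 e he)
          have hp : p ∈ ({x, u, v} : Finset (Fin n)) := heT (by simp)
          have hq : q ∈ ({x, u, v} : Finset (Fin n)) := heT (by simp)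
          have hadj : adj A p q := adj_of_mem hA hT hTc hp hq hpq.symm
          have h1 : s p = q := hs2 p q hpq.symm he hadj
          have h2 : s q = p := by rw [← h1, hss]
          rw [Finset.mem_insert, Finset.mem_insert, Finset.mem_singleton] at hp hq
          rcases hp with rfl | rfl | rfl <;> rcases hq with rfl | rfl | rfl
          · exact absurd rfl hpq
          · exact Or.inl h1
          · exact Or.inr (Or.inl h1)
          · exact Or.inl h2
          · exact absurd rfl hpq
          · exact Or.inr (Or.inr h1)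
          · exact Or.inr (Or.inl h2)
          · exact Or.inr (Or.inr h2)
          · exact absurd rfl hpq
        edge := fun x u hu => by
          rw [mem_nb] at hu
          obtain ⟨v, hv1, hv2⟩ := edge_tri hA hu
          exact ⟨v, (mem_nb A x v).2 hv1, (mem_nb A u v).2 hv2⟩
        reg := fun x => reg_ineq hA hr x }
    have : Nonempty (Fin n) := ⟨⟨0, by omega⟩⟩
    have h1 := G.fourteen (by omega)
    rw [Fintype.card_fin] at h1
    omega

end Pool.Agent.Helper66.RMP
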