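import Pool.Agent.Helper66.RMP.Gen

/-!
MP_8b97a7_co, matching type: the least regularity is `n - 2 - ⌊n/14⌋`.
-/

set_option autoImplicit false

namespace Pool.Agent.Helper66.RMP

open Finset Pool.Agent.Helper8.RM

/-- `+1` for the end `false`, `+2` for the end `true`. -/
def stp (b : Bool) : Fin 7 := if b then 2 else 1

theorem stp_two : ∀ (i j : Fin 7) (b b' : Bool), j = i + stp b → i ≠ j + stp b' := by decide

theorem stp_cyc : ∀ (i j l : Fin 7) (b b' b'' : Bool), j = i + stp b → l = j + stp b' →
    i ≠ l + stp b'' := by decide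

theorem stp_zt (i j : Fin 7) (b : Bool) (hi : i = 0 ∨ i = 3) (hj : j = 0 ∨ j = 3) :
    j ≠ i + stp b := by
  rcases hi with rfl | rfl <;> rcases hj with rfl | rfl <;> cases b <;> decide

theorem stp_self : ∀ (i : Fin 7) (b : Bool), i ≠ i + stp b := by decide

theorem stp_disj : ∀ (i : Fin 7) (b : Bool), i + stp b ≠ i + stp (!b) := by decide

/-- The incidence relation of the blow-up with further vertices. -/
def Inc7 (m s : ℕ) (k₀ : Fin m) : Vt (Fin 7 × Fin m) (Fin s) → Fin 7 × Fin m → Prop
  | Sum.inl ((i, _), b), (j, _) => j = i + stp b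
  | Sum.inr _, (j, l) => j = 0 ∨ (j = 3 ∧ l = k₀)

theorem card_fst (m : ℕ) (i : Fin 7) :
    (Finset.univ.filter fun p : Fin 7 × Fin m => p.1 = i).card = m := by
  have h : (Finset.univ.filter fun p : Fin 7 × Fin m => p.1 = i) =
      ({i} : Finset (Fin 7)) ×ˢ (Finset.univ : Finset (Fin m)) := by
    ext p
    rw [Finset.mem_filter, Finset.mem_product, Finset.mem_singleton]
    simp
  rw [h, Finset.card_product, Finset.card_singleton, Finset.card_univ, Fintype.card_fin, one_mul]

open Classical in
/-- The incidence structure. -/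
noncomputable def inc7 (m s : ℕ) (k₀ : Fin m) : IncS (Fin 7 × Fin m) (Fin s) (m + 1) where
  Inc := Inc7 m s k₀
  two := by
    rintro ⟨i, k⟩ b ⟨j, l⟩ b' h h'
    exact stp_two i j b b' h h'
  ind := by
    rintro (⟨⟨i, k⟩, d⟩ | u) ⟨j, l⟩ ⟨j', l'⟩ b h h' h''
    · have e1 : j = i + stp d := h
      have e2 : j' = i + stp d := h'
      have e3 : j' = j + stp b := h''
      rw [e2, ← e1] at e3
      exact stp_self j b e3
    · have e1 : j = 0 ∨ (j = 3 ∧ l = k₀) := h
      have e2 : j' = 0 ∨ (j' = 3 ∧ l' = k₀) := h'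
      exact stp_zt j j' b (e1.imp id fun h => h.1) (e2.imp id fun h => h.1) h''
  cyc := by
    rintro ⟨i, k⟩ b ⟨j, l⟩ b' ⟨q, t⟩ b'' h h' h''
    exact stp_cyc i j q b b' b'' h h' h''
  disj := by
    rintro ⟨i, k⟩ b ⟨j, l⟩ h h'
    have e1 : j = i + stp b := h
    have e2 : j = i + stp (!b) := h'
    exact stp_disj i b (e1.symm.trans e2)
  surj := by
    rintro ⟨j, l⟩
    refine ⟨Sum.inl ((j - 1, l), false), ?_⟩
    change j = (j - 1) + stp false
    revert j
    decide
  outP := by
    rintro ⟨i, k⟩ b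
    have h : (Finset.univ.filter fun p' : Fin 7 × Fin m => Inc7 m s k₀ (Sum.inl ((i, k), b)) p') =
        Finset.univ.filter fun p : Fin 7 × Fin m => p.1 = i + stp b := by
      ext p
      rw [Finset.mem_filter, Finset.mem_filter]
      rfl
    rw [h, card_fst]
  outU := by
    intro u
    have h : (Finset.univ.filter fun p' : Fin 7 × Fin m => Inc7 m s k₀ (Sum.inr u) p') =
        insert (3, k₀) (Finset.univ.filter fun p : Fin 7 × Fin m => p.1 = 0) := by
      ext p
      rw [Finset.mem_filter, Finset.mem_insert, Finset.mem_filter]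
      constructor
      · rintro ⟨_, h | h⟩
        · exact Or.inr ⟨Finset.mem_univ _, h⟩
        · exact Or.inl (Prod.ext h.1 h.2)
      · rintro (h | h)
        · exact ⟨Finset.mem_univ _, Or.inr ⟨by rw [h], by rw [h]⟩⟩
        · exact ⟨Finset.mem_univ _, Or.inl h.2⟩
    rw [h, Finset.card_insert_of_notMem, card_fst]
    rw [Finset.mem_filter]
    rintro ⟨_, h⟩
    have h' : (3 : Fin 7) = 0 := h
    exact absurd h' (by decide)

/-- The incidence relation of the book. -/
def IncB (s : ℕ) : Vt Unit (Fin s) → Unit → Prop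
  | Sum.inl _, _ => False
  | Sum.inr _, _ => True

open Classical in
/-- The book. -/
noncomputable def incBook (s : ℕ) (hs : 1 ≤ s) : IncS Unit (Fin s) 1 where
  Inc := IncB s
  two := by
    rintro p b p' b' h
    exact absurd h id
  ind := by
    rintro x p p' b _ _ h
    exact absurd h id
  cyc := by
    rintro p b p' b' p'' b'' h
    exact absurd h id
  disj := by
    rintro p b p' h
    exact absurd h id
  surj := fun _ => ⟨Sum.inr ⟨0, by omega⟩, trivial⟩
  outP := by
    intro p b
    have h : (Finset.univ.filter fun p' : Unit => IncB s (Sum.inl (p, b)) p') = ∅ := by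
      ext x
      rw [Finset.mem_filter]
      exact ⟨fun h => absurd h.2 id, fun h => absurd h (Finset.notMem_empty x)⟩
    rw [h]
    rfl
  outU := by
    intro u
    have h : (Finset.univ.filter fun p' : Unit => IncB s (Sum.inr u) p') = Finset.univ := by
      ext x
      rw [Finset.mem_filter]
      exact ⟨fun h => Finset.mem_univ _, fun _ => ⟨Finset.mem_univ _, trivial⟩⟩
    rw [h]
    rfl

/-- The upper bound. -/
theorem upper (n : ℕ) (hn : 3 ≤ n) : ∃ A : Finset (Finset (Fin n)),
    IsMax23 n A ∧ IsReg n A (n - 2 - n / 14) ∧ MatchingType n A := by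
  by_cases h : n < 14
  · have h0 : n / 14 = 0 := Nat.div_eq_of_lt h
    obtain ⟨A, h1, h2, h3⟩ := (incBook (n - 2) (by omega)).antichain n (by
      rw [Fintype.card_sum, Fintype.card_prod, Fintype.card_unit, Fintype.card_bool,
        Fintype.card_fin]
      omega) (by omega)
    refine ⟨A, h1, ?_, h3⟩
    rw [h0]
    exact h2
  · obtain ⟨m, s, hms, hm, hs⟩ : ∃ m s : ℕ, n = 14 * m + s ∧ 1 ≤ m ∧ s < 14 :=
      ⟨n / 14, n % 14, by omega, by omega, by omega⟩
    obtain ⟨A, h1, h2, h3⟩ := (inc7 m s ⟨0, by omega⟩).antichain n (by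
      rw [Fintype.card_sum, Fintype.card_prod, Fintype.card_prod, Fintype.card_bool,
        Fintype.card_fin, Fintype.card_fin, Fintype.card_fin]
      omega) (by omega)
    refine ⟨A, h1, ?_, h3⟩
    have h4 : n / 14 = m := by omega
    have h5 : n - 2 - n / 14 = n - (m + 1 + 1) := by omega
    rw [h5]
    exact h2

/-- The least regularity of a regular maximal (2,3)-antichain of matching type. -/
theorem least (n : ℕ) (hn : 3 ≤ n) :
    IsLeast {r : ℕ | ∃ A : Finset (Finset (Fin n)),
      IsMax23 n A ∧ IsReg n A r ∧ MatchingType n A} (n - 2 - n / 14) := by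
  refine ⟨upper n hn, ?_⟩
  rintro r ⟨A, hA, hr, hM⟩
  have h := lower hA hr hM
  omega

end Pool.Agent.Helper66.RMP
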