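import Pool.Agent.Helper66.RMP.Pure

/-!
MP_8b97a7_co, pure case: from graphs with a matching to two-coloured digraphs.
-/

set_option autoImplicit false

namespace Pool.Agent.Helper66.RMP

open Finset

/-- A graph (neighbourhoods `N`) with a partial matching `σ` (an involution, `σ x = x` for the
unmatched vertices) such that every triangle contains an edge of the matching, every edge is in a
triangle, and `degree - number of triangles` is at least `c`. -/
structure MG (V : Type) [Fintype V] [DecidableEq V] (c : ℤ) where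
  N : V → Finset V
  symm : ∀ x y, y ∈ N x → x ∈ N y
  irr : ∀ x, x ∉ N x
  s : V → V
  ss : ∀ x, s (s x) = x
  sN : ∀ x, s x ≠ x → s x ∈ N x
  tri : ∀ x u v, u ∈ N x → v ∈ N x → v ∈ N u → s x = u ∨ s x = v ∨ s u = v
  edge : ∀ x u, u ∈ N x → ∃ v, v ∈ N x ∧ v ∈ N u
  reg : ∀ x, 2 * c ≤ 2 * ((N x).card : ℤ) - ∑ u ∈ N x, ((N x ∩ N u).card : ℤ)

/-- An invariant subset of prescribed size. -/
theorem exists_inv_subset {V : Type} [DecidableEq V] (s : V → V) (ss : ∀ x, s (s x) = x) (m : ℕ) :
    ∀ Q : Finset V, (∀ x ∈ Q, s x ∈ Q) → (∀ x ∈ Q, s x ≠ x) → 2 * m ≤ Q.card →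
      ∃ O ⊆ Q, (∀ x ∈ O, s x ∈ O) ∧ O.card = 2 * m := by
  induction m with
  | zero =>
    intro Q _ _ _
    exact ⟨∅, Finset.empty_subset _, fun x hx => absurd hx (Finset.notMem_empty x), by simp⟩
  | succ m ih =>
    intro Q hQ hQ' hc
    have hne : Q.Nonempty := by
      rw [← Finset.card_pos]
      omega
    obtain ⟨u, hu⟩ := hne
    have hu' := hQ u hu
    have hne' := hQ' u hu
    have hc1 : ((Q.erase u).erase (s u)).card = Q.card - 1 - 1 := by
      rw [Finset.card_erase_of_mem (Finset.mem_erase.2 ⟨hne', hu'⟩), Finset.card_erase_of_mem hu]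
    obtain ⟨O, hO, hO1, hO2⟩ := ih ((Q.erase u).erase (s u)) (by
      intro x hx
      rw [Finset.mem_erase, Finset.mem_erase] at hx ⊢
      refine ⟨fun h => hx.2.1 ?_, fun h => hx.1 ?_, hQ x hx.2.2⟩
      · rw [← ss x, h, ss]
      · rw [← ss x, h]) (fun x hx => hQ' x (Finset.mem_of_mem_erase (Finset.mem_of_mem_erase hx)))
      (by omega)
    have hsuO : s u ∉ O := fun h => (Finset.mem_erase.1 (hO h)).1 rfl
    have huO : u ∉ O := fun h => (Finset.mem_erase.1 (Finset.mem_erase.1 (hO h)).2).1 rfl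
    refine ⟨insert u (insert (s u) O), ?_, ?_, ?_⟩
    · intro x hx
      rw [Finset.mem_insert, Finset.mem_insert] at hx
      rcases hx with rfl | rfl | hx
      · exact hu
      · exact hu'
      · exact Finset.mem_of_mem_erase (Finset.mem_of_mem_erase (hO hx))
    · intro x hx
      rw [Finset.mem_insert, Finset.mem_insert] at hx ⊢
      rcases hx with rfl | rfl | hx
      · exact Or.inr (Or.inl rfl)
      · exact Or.inl (ss _)
      · exact Or.inr (Or.inr (hO1 x hx))
    · rw [Finset.card_insert_of_notMem, Finset.card_insert_of_notMem hsuO, hO2]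
      · ring
      · rw [Finset.mem_insert]
        rintro (h | h)
        · exact hne' h.symm
        · exact huO h

namespace MG

variable {V : Type} [Fintype V] [DecidableEq V] {c : ℤ} (G : MG V c)

theorem s_ne (x : V) (h : G.s x ≠ x) : G.s (G.s x) ≠ G.s x := by
  rw [G.ss]
  exact h.symm

theorem s_inj (x y : V) (h : G.s x = G.s y) : x = y := by
  rw [← G.ss x, h, G.ss]

/-- The graph without the matching. -/
def B (x : V) : Finset V := (G.N x).erase (G.s x)

theorem mem_B (x u : V) : u ∈ G.B x ↔ u ≠ G.s x ∧ u ∈ G.N x := Finset.mem_erase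

theorem B_symm (x u : V) (h : u ∈ G.B x) : x ∈ G.B u := by
  rw [mem_B] at h ⊢
  refine ⟨fun h' => h.1 ?_, G.symm _ _ h.2⟩
  rw [h', G.ss]

theorem B_tri (x u v : V) (h1 : u ∈ G.B x) (h2 : v ∈ G.B x) (h3 : v ∈ G.B u) : False := by
  rw [mem_B] at h1 h2 h3
  rcases G.tri x u v h1.2 h2.2 h3.2 with h | h | h
  · exact h1.1 h.symm
  · exact h2.1 h.symm
  · exact h3.1 h.symm

/-- `u` is a neighbour of the partner of `x`. -/
def gP (x u : V) : Prop := G.s x ≠ x ∧ u ∈ G.N (G.s x)

/-- The partner of `u` is a neighbour of `x`. -/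
def hP (x u : V) : Prop := G.s u ≠ u ∧ G.s u ∈ G.N x

open Classical in
/-- The matching edges in the neighbourhood of `x` which avoid the neighbourhood of the partner. -/
noncomputable def Q (x : V) : Finset V :=
  (G.B x).filter fun u => G.hP x u ∧ ¬ G.gP x u ∧ ¬ G.gP x (G.s u)

open Classical in
theorem mem_Q (x u : V) :
    u ∈ G.Q x ↔ u ∈ G.B x ∧ G.hP x u ∧ ¬ G.gP x u ∧ ¬ G.gP x (G.s u) := by
  unfold Q
  rw [Finset.mem_filter]

theorem sB (x u : V) (hu : u ∈ G.N x) (h : G.s u ∈ G.N x) : G.s u ∈ G.B x := by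
  rw [mem_B]
  refine ⟨fun h' => ?_, h⟩
  have := G.s_inj _ _ h'
  rw [this] at hu
  exact G.irr _ hu

theorem hP_s (x u : V) (hu : u ∈ G.N x) (h : G.hP x u) : G.hP x (G.s u) := by
  refine ⟨G.s_ne u h.1, ?_⟩
  rw [G.ss]
  exact hu

theorem Q_inv (x u : V) (h : u ∈ G.Q x) : G.s u ∈ G.Q x := by
  rw [mem_Q] at h ⊢
  have h1 := (G.mem_B x u).1 h.1
  refine ⟨G.sB x u h1.2 h.2.1.2, G.hP_s x u h1.2 h.2.1, h.2.2.2, ?_⟩
  rw [G.ss]
  exact h.2.2.1

theorem Q_ne (x u : V) (h : u ∈ G.Q x) : G.s u ≠ u := ((G.mem_Q x u).1 h).2.1.1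

open Classical in
theorem Q_card (x : V) : 2 * (c - 1) ≤ ((G.Q x).card : ℤ) := by
  -- indicator functions
  set g : V → ℤ := fun u => if G.gP x u then 1 else 0 with hg
  set h : V → ℤ := fun u => if G.hP x u then 1 else 0 with hh
  have h1 := G.reg x
  have h2 : ∀ u ∈ G.B x, g u + h u ≤ ((G.N x ∩ G.N u).card : ℤ) := by
    intro u hu
    have hu1 := (G.mem_B x u).1 hu
    have hux : u ≠ x := fun e => G.irr x (by rw [e] at hu1; exact hu1.2)
    by_cases hgu : G.gP x u
    · have m1 : G.s x ∈ G.N x ∩ G.N u := by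
        rw [Finset.mem_inter]
        exact ⟨G.sN x hgu.1, G.symm _ _ hgu.2⟩
      by_cases hhu : G.hP x u
      · have m2 : G.s u ∈ G.N x ∩ G.N u := by
          rw [Finset.mem_inter]
          exact ⟨hhu.2, G.sN u hhu.1⟩
        have m3 : ({G.s x, G.s u} : Finset V) ⊆ G.N x ∩ G.N u := by
          intro w hw
          rw [Finset.mem_insert, Finset.mem_singleton] at hw
          rcases hw with rfl | rfl
          · exact m1
          · exact m2
        have m4 := Finset.card_le_card m3
        rw [Finset.card_pair (fun e => hux (G.s_inj _ _ e.symm))] at m4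
        simp only [hg, hh, if_pos hgu, if_pos hhu]
        have m5 : ((2 : ℕ) : ℤ) ≤ ((G.N x ∩ G.N u).card : ℤ) := by exact_mod_cast m4
        push_cast at m5
        linarith
      · simp only [hg, hh, if_pos hgu, if_neg hhu]
        have m4 : 1 ≤ (G.N x ∩ G.N u).card := Finset.card_pos.2 ⟨_, m1⟩
        have m5 : ((1 : ℕ) : ℤ) ≤ ((G.N x ∩ G.N u).card : ℤ) := by exact_mod_cast m4
        push_cast at m5
        linarith
    · by_cases hhu : G.hP x u
      · have m2 : G.s u ∈ G.N x ∩ G.N u := by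
          rw [Finset.mem_inter]
          exact ⟨hhu.2, G.sN u hhu.1⟩
        simp only [hg, hh, if_neg hgu, if_pos hhu]
        have m4 : 1 ≤ (G.N x ∩ G.N u).card := Finset.card_pos.2 ⟨_, m2⟩
        have m5 : ((1 : ℕ) : ℤ) ≤ ((G.N x ∩ G.N u).card : ℤ) := by exact_mod_cast m4
        push_cast at m5
        linarith
      · simp only [hg, hh, if_neg hgu, if_neg hhu]
        positivity
  have h3 : ∀ u ∈ G.B x, g u = 1 ∨ h u = 1 := by
    intro u hu
    have hu1 := (G.mem_B x u).1 hu
    obtain ⟨v, hv1, hv2⟩ := G.edge x u hu1.2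
    rcases G.tri x u v hu1.2 hv1 hv2 with e | e | e
    · exact absurd e.symm hu1.1
    · left
      have : G.gP x u := by
        refine ⟨fun e' => G.irr x ?_, ?_⟩
        · rw [← e, e'] at hv1
          exact hv1
        · rw [e]
          exact G.symm _ _ hv2
      simp only [hg, if_pos this]
    · right
      have : G.hP x u := by
        refine ⟨fun e' => G.irr u ?_, ?_⟩
        · rw [← e, e'] at hv2
          exact hv2
        · rw [e]
          exact hv1
      simp only [hh, if_pos this]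
  have g01 : ∀ u, g u = 0 ∨ g u = 1 := by
    intro u
    by_cases hgu : G.gP x u
    · right; simp only [hg, if_pos hgu]
    · left; simp only [hg, if_neg hgu]
  have h01 : ∀ u, h u = 0 ∨ h u = 1 := by
    intro u
    by_cases hgu : G.hP x u
    · right; simp only [hh, if_pos hgu]
    · left; simp only [hh, if_neg hgu]
  -- the sum over the neighbours
  have h4 : 2 * ((G.N x).card : ℤ) ≤ 2 * ((G.B x).card : ℤ) + 2 := by
    have := Finset.pred_card_le_card_erase (s := G.N x) (a := G.s x)
    have h5 : (G.N x).card ≤ (G.B x).card + 1 := by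
      unfold B
      omega
    exact_mod_cast (by omega : 2 * (G.N x).card ≤ 2 * (G.B x).card + 2)
  have h5 : ∑ u ∈ G.B x, (2 * g u + h u) ≤ ∑ u ∈ G.N x, ((G.N x ∩ G.N u).card : ℤ) := by
    have e1 : ∑ u ∈ G.B x, (2 * g u + h u) = ∑ u ∈ G.B x, g u + ∑ u ∈ G.B x, (g u + h u) := by
      rw [← Finset.sum_add_distrib]
      exact Finset.sum_congr rfl fun u _ => by ring
    have e2 : ∑ u ∈ G.B x, (g u + h u) ≤ ∑ u ∈ G.B x, ((G.N x ∩ G.N u).card : ℤ) :=
      Finset.sum_le_sum h2
    by_cases hs : G.s x = x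
    · have e3 : G.B x = G.N x := by
        unfold B
        rw [hs]
        exact Finset.erase_eq_of_notMem (G.irr x)
      have e4 : ∑ u ∈ G.B x, g u = 0 := by
        refine Finset.sum_eq_zero fun u _ => ?_
        have : ¬ G.gP x u := fun h => h.1 hs
        simp only [hg, if_neg this]
      rw [e1, e4, zero_add, ← e3]
      exact le_trans e2 (le_of_eq (by rw [e3]))
    · have e3 : ∑ u ∈ G.N x, ((G.N x ∩ G.N u).card : ℤ) =
          ((G.N x ∩ G.N (G.s x)).card : ℤ) + ∑ u ∈ G.B x, ((G.N x ∩ G.N u).card : ℤ) := by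
        unfold B
        exact (Finset.add_sum_erase _ _ (G.sN x hs)).symm
      have e4 : ∑ u ∈ G.B x, g u ≤ ((G.N x ∩ G.N (G.s x)).card : ℤ) := by
        have e5 : ∑ u ∈ G.B x, g u = (((G.B x).filter fun u => G.gP x u).card : ℤ) := by
          rw [Finset.card_filter]
          push_cast
          rfl
        rw [e5]
        have e6 : (G.B x).filter (fun u => G.gP x u) ⊆ G.N x ∩ G.N (G.s x) := by
          intro u hu
          rw [Finset.mem_filter, mem_B] at hu
          rw [Finset.mem_inter]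
          exact ⟨hu.1.2, hu.2.2⟩
        exact_mod_cast Finset.card_le_card e6
      rw [e1, e3]
      linarith
  have h6 : 2 * (c - 1) ≤ ∑ u ∈ G.B x, (2 - (2 * g u + h u)) := by
    rw [Finset.sum_sub_distrib, Finset.sum_const, nsmul_eq_mul]
    linarith
  -- symmetrise over the matching edges
  have h7 : ∑ u ∈ G.B x, (2 - (2 * g u + h u)) =
      ∑ u ∈ (G.B x).filter (fun u => G.hP x u), (1 - 2 * g u) := by
    rw [Finset.sum_filter]
    refine Finset.sum_congr rfl fun u hu => ?_
    by_cases hhu : G.hP x u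
    · rw [if_pos hhu]
      have : h u = 1 := by simp only [hh, if_pos hhu]
      rw [this]
      ring
    · rw [if_neg hhu]
      have e1 : h u = 0 := by simp only [hh, if_neg hhu]
      have e2 : g u = 1 := by
        rcases h3 u hu with e | e
        · exact e
        · rw [e1] at e
          exact absurd e (by norm_num)
      rw [e1, e2]
      norm_num
  have h8 : ∑ u ∈ (G.B x).filter (fun u => G.hP x u), g u =
      ∑ u ∈ (G.B x).filter (fun u => G.hP x u), g (G.s u) := by
    refine Finset.sum_nbij' G.s G.s ?_ ?_ ?_ ?_ ?_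
    · intro u hu
      rw [Finset.mem_filter] at hu ⊢
      have hu1 := ((G.mem_B x u).1 hu.1).2
      exact ⟨G.sB x u hu1 hu.2.2, G.hP_s x u hu1 hu.2⟩
    · intro u hu
      rw [Finset.mem_filter] at hu ⊢
      have hu1 := ((G.mem_B x u).1 hu.1).2
      exact ⟨G.sB x u hu1 hu.2.2, G.hP_s x u hu1 hu.2⟩
    · intro u _
      exact G.ss u
    · intro u _
      exact G.ss u
    · intro u _
      rw [G.ss]
  have h9 : ∑ u ∈ (G.B x).filter (fun u => G.hP x u), (1 - 2 * g u) =
      ∑ u ∈ (G.B x).filter (fun u => G.hP x u), (1 - g u - g (G.s u)) := by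
    rw [Finset.sum_sub_distrib, Finset.sum_sub_distrib, Finset.sum_sub_distrib, ← h8,
      ← Finset.mul_sum]
    ring
  have h10 : ∑ u ∈ (G.B x).filter (fun u => G.hP x u), (1 - g u - g (G.s u)) ≤
      ((G.Q x).card : ℤ) := by
    have e1 : ((G.Q x).card : ℤ) = ∑ u ∈ (G.B x).filter (fun u => G.hP x u),
        (if ¬ G.gP x u ∧ ¬ G.gP x (G.s u) then 1 else 0) := by
      have e2 : G.Q x = ((G.B x).filter (fun u => G.hP x u)).filter
          (fun u => ¬ G.gP x u ∧ ¬ G.gP x (G.s u)) := by
        ext u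
        rw [mem_Q, Finset.mem_filter, Finset.mem_filter]
        tauto
      rw [e2, Finset.card_filter]
      push_cast
      rfl
    rw [e1]
    refine Finset.sum_le_sum fun u _ => ?_
    by_cases e3 : G.gP x u
    · have e4 : g u = 1 := by simp only [hg, if_pos e3]
      rw [if_neg (fun h => h.1 e3), e4]
      rcases g01 (G.s u) with e5 | e5 <;> rw [e5] <;> norm_num
    · have e4 : g u = 0 := by simp only [hg, if_neg e3]
      by_cases e5 : G.gP x (G.s u)
      · have e6 : g (G.s u) = 1 := by simp only [hg, if_pos e5]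
        rw [if_neg (fun h => h.2 e5), e4, e6]
        norm_num
      · have e6 : g (G.s u) = 0 := by simp only [hg, if_neg e5]
        rw [if_pos ⟨e3, e5⟩, e4, e6]
        norm_num
  rw [h7, h9] at h6
  linarith

theorem exists_O (m : ℕ) (hm : (m : ℤ) = c - 1) (x : V) :
    ∃ O ⊆ G.Q x, (∀ u ∈ O, G.s u ∈ O) ∧ O.card = 2 * m := by
  refine exists_inv_subset G.s G.ss m (G.Q x) (fun u hu => G.Q_inv x u hu)
    (fun u hu => G.Q_ne x u hu) ?_
  have h := G.Q_card x
  rw [← hm] at h
  exact_mod_cast h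

include G in
/-- The main inequality for graphs with a matching. -/
theorem fourteen [Nonempty V] (hc : 1 < c) : 14 * (c - 1) ≤ (Fintype.card V : ℤ) := by
  classical
  obtain ⟨m, hm⟩ : ∃ m : ℕ, (m : ℤ) = c - 1 := ⟨(c - 1).toNat, Int.toNat_of_nonneg (by omega)⟩
  have hm0 : 0 < m := by
    have : (0 : ℤ) < (m : ℤ) := by omega
    exact_mod_cast this
  choose O hOQ hOs hOc using G.exists_O m hm
  -- basic facts
  have hO_B : ∀ x u, u ∈ O x → u ∈ G.B x := fun x u hu => ((G.mem_Q x u).1 (hOQ x hu)).1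
  have hO_ne : ∀ x u, u ∈ O x → G.s u ≠ u := fun x u hu => G.Q_ne x u (hOQ x hu)
  have hO_g : ∀ x u, u ∈ O x → ¬ G.gP x u := fun x u hu => ((G.mem_Q x u).1 (hOQ x hu)).2.2.1
  -- an end of a pair may be replaced by the other one
  have hends : ∀ x u w, u ∈ O x → (w = u ∨ w = G.s u) → w ∈ O x := by
    rintro x u w hu (rfl | rfl)
    · exact hu
    · exact hOs x u hu
  set W : Type := {x : V // G.s x ≠ x} with hW
  have hE : ∀ (X : W) (y : V), y ∈ O X.1 → y ∈ O (G.s X.1) → False := by
    intro X y h1 h2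
    refine hO_g X.1 y h1 ⟨X.2, ?_⟩
    exact ((G.mem_B _ _).1 (hO_B _ _ h2)).2
  -- a step from a vertex
  have hsum : ∀ x : V, ∑ Y : W, (if Y.1 ∈ O x then (1 : ℤ) else 0) = 2 * (m : ℤ) := by
    intro x
    have e1 : ∑ Y : W, (if Y.1 ∈ O x then (1 : ℤ) else 0) =
        ((Finset.univ.filter (fun Y : W => Y.1 ∈ O x)).card : ℤ) := by
      rw [Finset.card_filter]
      push_cast
      rfl
    have e2 : (Finset.univ.filter (fun Y : W => Y.1 ∈ O x)).map
        ⟨Subtype.val, Subtype.val_injective⟩ = O x := by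
      ext y
      rw [Finset.mem_map]
      constructor
      · rintro ⟨Y, hY, rfl⟩
        exact (Finset.mem_filter.1 hY).2
      · intro hy
        exact ⟨⟨y, hO_ne x y hy⟩, Finset.mem_filter.2 ⟨Finset.mem_univ _, hy⟩, rfl⟩
    rw [e1, ← Finset.card_map ⟨Subtype.val, Subtype.val_injective⟩, e2, hOc]
    push_cast
    rfl
  have he : ∀ X Y : W, ((if Y.1 ∈ O X.1 then (1 : ℤ) else 0) +
      (if Y.1 ∈ O (G.s X.1) then (1 : ℤ) else 0) = 0) ∨
      ∃ x', (x' = X.1 ∨ x' = G.s X.1) ∧ Y.1 ∈ O x' := by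
    intro X Y
    by_cases h1 : Y.1 ∈ O X.1
    · exact Or.inr ⟨X.1, Or.inl rfl, h1⟩
    · by_cases h2 : Y.1 ∈ O (G.s X.1)
      · exact Or.inr ⟨G.s X.1, Or.inr rfl, h2⟩
      · left
        rw [if_neg h1, if_neg h2]
        norm_num
  let S : PureS W (2 * (m : ℤ)) :=
    { a := fun X Y => if Y.1 ∈ O X.1 then 1 else 0
      b := fun X Y => if Y.1 ∈ O (G.s X.1) then 1 else 0
      ha := fun X Y => by
        by_cases h1 : Y.1 ∈ O X.1
        · rw [if_pos h1]; exact Or.inr rfl
        · rw [if_neg h1]; exact Or.inl rfl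
      hb := fun X Y => by
        by_cases h1 : Y.1 ∈ O (G.s X.1)
        · rw [if_pos h1]; exact Or.inr rfl
        · rw [if_neg h1]; exact Or.inl rfl
      hab := fun X Y => by
        by_cases h1 : Y.1 ∈ O X.1
        · rw [if_pos h1, if_neg (fun h2 => hE X Y.1 h1 h2)]
          norm_num
        · rw [if_neg h1]
          split_ifs <;> norm_num
      sa := fun X => hsum X.1
      sb := fun X => hsum (G.s X.1)
      anti := fun X Y => by
        rcases he X Y with h1 | ⟨x', hx', h1⟩
        · rw [h1, zero_mul]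
        · rcases he Y X with h2 | ⟨y', hy', h2⟩
          · rw [h2, mul_zero]
          · exfalso
            have h3 : y' ∈ O x' := hends x' Y.1 y' h1 hy'
            have h4 : x' ∈ O y' := hends y' X.1 x' h2 hx'
            have h5 : G.s x' ∈ O y' := hOs y' x' h4
            refine hO_g x' y' h3 ⟨hO_ne y' x' h4, ?_⟩
            exact G.symm _ _ ((G.mem_B _ _).1 (hO_B _ _ h5)).2
      tri := fun X Y Z => by
        rcases he X Y with h1 | ⟨x', hx', h1⟩
        · rw [h1, zero_mul, zero_mul]
        · rcases he Y Z with h2 | ⟨y', hy', h2⟩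
          · rw [h2, mul_zero, zero_mul]
          · rcases he Z X with h3 | ⟨z', hz', h3⟩
            · rw [h3, mul_zero]
            · exfalso
              have h4 : y' ∈ O x' := hends x' Y.1 y' h1 hy'
              have h5 : z' ∈ O y' := hends y' Z.1 z' h2 hz'
              have h6 : x' ∈ O z' := hends z' X.1 x' h3 hx'
              exact G.B_tri x' y' z' (hO_B _ _ h4) (G.B_symm _ _ (hO_B _ _ h6)) (hO_B _ _ h5)
      ia := fun X Y Z => by
        by_cases h1 : Y.1 ∈ O X.1
        · by_cases h2 : Z.1 ∈ O X.1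
          · rcases he Y Z with h3 | ⟨y', hy', h3⟩
            · rw [h3, mul_zero]
            · exfalso
              have h4 : y' ∈ O X.1 := hends X.1 Y.1 y' h1 hy'
              exact G.B_tri X.1 y' Z.1 (hO_B _ _ h4) (hO_B _ _ h2) (hO_B _ _ h3)
          · rw [if_neg h2, mul_zero, zero_mul]
        · rw [if_neg h1, zero_mul, zero_mul]
      ib := fun X Y Z => by
        by_cases h1 : Y.1 ∈ O (G.s X.1)
        · by_cases h2 : Z.1 ∈ O (G.s X.1)
          · rcases he Y Z with h3 | ⟨y', hy', h3⟩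
            · rw [h3, mul_zero]
            · exfalso
              have h4 : y' ∈ O (G.s X.1) := hends (G.s X.1) Y.1 y' h1 hy'
              exact G.B_tri (G.s X.1) y' Z.1 (hO_B _ _ h4) (hO_B _ _ h2) (hO_B _ _ h3)
          · rw [if_neg h2, mul_zero, zero_mul]
        · rw [if_neg h1, zero_mul, zero_mul] }
  have hne : Nonempty W := by
    obtain ⟨x⟩ := ‹Nonempty V›
    have h1 : (O x).Nonempty := by
      rw [← Finset.card_pos, hOc]
      omega
    obtain ⟨u, hu⟩ := h1
    exact ⟨⟨u, hO_ne x u hu⟩⟩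
  have h1 := S.seven (by positivity)
  have h2 : Fintype.card W ≤ Fintype.card V := Fintype.card_subtype_le _
  have h3 : ((Fintype.card W : ℕ) : ℤ) ≤ (Fintype.card V : ℤ) := by exact_mod_cast h2
  rw [← hm]
  linarith

end MG

end Pool.Agent.Helper66.RMP
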