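import Mathlib

/-!
MP_8b97a7_co, pure case: the inequality `7 m ≤ N` for two-coloured digraphs without directed
triangles in which every vertex has `m` out-neighbours of each colour and each colour class is
independent.  (Short double counting proof due to helper8, another one due to helper44.)
-/

set_option autoImplicit false

namespace Pool.Agent.Helper66.RMP

open Finset

/-- A two-coloured digraph: `a x y = 1` (`b x y = 1`) if there is an arc of colour `a` (`b`) from
`x` to `y`. -/
structure PureS (V : Type) [Fintype V] (m : ℤ) where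
  a : V → V → ℤ
  b : V → V → ℤ
  ha : ∀ x y, a x y = 0 ∨ a x y = 1
  hb : ∀ x y, b x y = 0 ∨ b x y = 1
  hab : ∀ x y, a x y + b x y ≤ 1
  sa : ∀ x, ∑ y, a x y = m
  sb : ∀ x, ∑ y, b x y = m
  anti : ∀ x y, (a x y + b x y) * (a y x + b y x) = 0
  tri : ∀ x y z, (a x y + b x y) * (a y z + b y z) * (a z x + b z x) = 0
  ia : ∀ x y z, a x y * a x z * (a y z + b y z) = 0
  ib : ∀ x y z, b x y * b x z * (a y z + b y z) = 0

namespace PureS

variable {V : Type} [Fintype V] {m : ℤ} (S : PureS V m)

/-- The arcs. -/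
def e (x y : V) : ℤ := S.a x y + S.b x y

theorem e01 (x y : V) : S.e x y = 0 ∨ S.e x y = 1 := by
  unfold e
  have h := S.hab x y
  rcases S.ha x y with h1 | h1 <;> rcases S.hb x y with h2 | h2 <;> rw [h1, h2] at h ⊢ <;> omega

theorem e_nonneg (x y : V) : 0 ≤ S.e x y := by
  rcases S.e01 x y with h | h <;> omega

theorem e_anti (x y : V) (h : S.e x y = 1) : S.e y x = 0 := by
  have h1 := S.anti x y
  change S.e x y * S.e y x = 0 at h1
  rw [h, one_mul] at h1
  exact h1

theorem e_tri (x y z : V) (h : S.e x y = 1) (h' : S.e y z = 1) : S.e z x = 0 := by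
  have h1 := S.tri x y z
  change S.e x y * S.e y z * S.e z x = 0 at h1
  rw [h, h', one_mul, one_mul] at h1
  exact h1

/-- Common out-neighbours. -/
def tout (x y : V) : ℤ := ∑ w, S.e x w * S.e y w

/-- Middles. -/
def tlong (x y : V) : ℤ := ∑ w, S.e x w * S.e w y

/-- Common in-neighbours. -/
def tin (x y : V) : ℤ := ∑ w, S.e w x * S.e w y

/-- Common non-neighbours. -/
def l (x y : V) : ℤ := ∑ w, (1 - (S.e x w + S.e w x)) * (1 - (S.e y w + S.e w y))

theorem adj01 (x y : V) : S.e x y + S.e y x = 0 ∨ S.e x y + S.e y x = 1 := by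
  rcases S.e01 x y with h | h
  · rcases S.e01 y x with h' | h' <;> omega
  · have := S.e_anti x y h
    omega

theorem l_nonneg (x y : V) : 0 ≤ S.l x y := by
  refine Finset.sum_nonneg fun w _ => ?_
  have h1 := S.adj01 x w
  have h2 := S.adj01 y w
  rcases h1 with h1 | h1 <;> rcases h2 with h2 | h2 <;> rw [h1, h2] <;> norm_num

theorem tout_nonneg (x y : V) : 0 ≤ S.tout x y :=
  Finset.sum_nonneg fun _ _ => mul_nonneg (S.e_nonneg _ _) (S.e_nonneg _ _)

theorem tlong_nonneg (x y : V) : 0 ≤ S.tlong x y :=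
  Finset.sum_nonneg fun _ _ => mul_nonneg (S.e_nonneg _ _) (S.e_nonneg _ _)

theorem tin_nonneg (x y : V) : 0 ≤ S.tin x y :=
  Finset.sum_nonneg fun _ _ => mul_nonneg (S.e_nonneg _ _) (S.e_nonneg _ _)

theorem out_deg (x : V) : ∑ y, S.e x y = 2 * m := by
  unfold e
  rw [Finset.sum_add_distrib, S.sa, S.sb]
  ring

/-- On an arc the common out-neighbours and the middles lie in one colour class. -/
theorem arc_bound (x y : V) (h : S.e x y = 1) : S.tout x y + S.tlong x y ≤ m := by
  unfold tout tlong
  rw [← Finset.sum_add_distrib]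
  have h' : S.a x y + S.b x y = 1 := h
  rcases S.ha x y with h0 | h0
  · have h1 : S.b x y = 1 := by omega
    refine le_trans (Finset.sum_le_sum fun w _ => ?_) (S.sa x).le
    have i1 := S.ib x y w
    have i2 := S.ib x w y
    change S.b x y * S.b x w * S.e y w = 0 at i1
    change S.b x w * S.b x y * S.e w y = 0 at i2
    rw [h1] at i1 i2
    have h3 : S.e x w = S.a x w + S.b x w := rfl
    have h4 := S.hab x w
    have h5 := S.adj01 y w
    rcases S.ha x w with h6 | h6 <;> rcases S.hb x w with h7 | h7 <;>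
      rw [h6, h7] at h3 h4 <;> rw [h7] at i1 i2 <;> rw [h6, h3]
    · norm_num
    · have j1 : S.e y w = 0 := by linarith
      have j2 : S.e w y = 0 := by linarith
      rw [j1, j2]
      norm_num
    · rcases h5 with h5 | h5 <;> linarith
    · omega
  · refine le_trans (Finset.sum_le_sum fun w _ => ?_) (S.sb x).le
    have i1 := S.ia x y w
    have i2 := S.ia x w y
    change S.a x y * S.a x w * S.e y w = 0 at i1
    change S.a x w * S.a x y * S.e w y = 0 at i2
    rw [h0] at i1 i2
    have h3 : S.e x w = S.a x w + S.b x w := rfl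
    have h4 := S.hab x w
    have h5 := S.adj01 y w
    rcases S.ha x w with h6 | h6 <;> rcases S.hb x w with h7 | h7 <;>
      rw [h6, h7] at h3 h4 <;> rw [h6] at i1 i2 <;> rw [h7, h3]
    · norm_num
    · rcases h5 with h5 | h5 <;> linarith
    · have j1 : S.e y w = 0 := by linarith
      have j2 : S.e w y = 0 := by linarith
      rw [j1, j2]
      norm_num
    · omega

/-- First lower bound for the number of common non-neighbours. -/
theorem l_first (x y s : V) (h2 : S.e y s = 1) (h3 : S.e x s = 1) :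
    2 * m - S.tout x s - S.tout y s ≤ S.l x y := by
  rw [← S.out_deg s]
  unfold tout l
  rw [← Finset.sum_sub_distrib, ← Finset.sum_sub_distrib]
  refine Finset.sum_le_sum fun t _ => ?_
  rcases S.e01 s t with h4 | h4
  · rw [h4]
    have h5 := S.adj01 x t
    have h6 := S.adj01 y t
    rcases h5 with h5 | h5 <;> rcases h6 with h6 | h6 <;> rw [h5, h6] <;> norm_num
  · rw [h4, S.e_tri x s t h3 h4, S.e_tri y s t h2 h4]
    rcases S.e01 x t with h5 | h5 <;> rcases S.e01 y t with h6 | h6 <;> rw [h5, h6] <;> norm_num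

/-- Second lower bound for the number of common non-neighbours. -/
theorem l_second (x y s : V) (h1 : S.e x y = 1) (h2 : S.e y s = 1) :
    m - S.tout x y ≤ S.l x s := by
  have h2' : S.a y s + S.b y s = 1 := h2
  have key : ∀ c : V → V → ℤ, (∀ u v, c u v = 0 ∨ c u v = 1) → (∀ u v, c u v ≤ S.e u v) →
      (∀ u v w, c u v * c u w * S.e v w = 0) → c y s = 1 → ∑ t, c y t - S.tout x y ≤ S.l x s := by
    intro c c01 ce ci cys
    unfold tout l
    rw [← Finset.sum_sub_distrib]
    refine Finset.sum_le_sum fun t _ => ?_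
    rcases c01 y t with h4 | h4
    · rw [h4]
      have h5 := S.adj01 x t
      have h6 := S.adj01 s t
      have h7 := mul_nonneg (S.e_nonneg x t) (S.e_nonneg y t)
      rcases h5 with h5 | h5 <;> rcases h6 with h6 | h6 <;> rw [h5, h6] <;> linarith
    · have h5 := ce y t
      have h6 : S.e y t = 1 := by
        rcases S.e01 y t with h | h
        · omega
        · exact h
      have h7 := S.e_tri x y t h1 h6
      have h8 := ci y s t
      have h9 := ci y t s
      rw [cys, h4, one_mul, one_mul] at h8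
      rw [cys, h4, one_mul, one_mul] at h9
      rw [h4, h6, h7, h8, h9]
      linarith
  rcases S.ha y s with h4 | h4
  · have h5 := key S.b S.hb (fun u v => by
      have h6 : S.e u v = S.a u v + S.b u v := rfl
      rcases S.ha u v with h | h <;> omega) S.ib (by omega)
    rw [S.sb y] at h5
    exact h5
  · have h5 := key S.a S.ha (fun u v => by
      have h6 : S.e u v = S.a u v + S.b u v := rfl
      rcases S.hb u v with h | h <;> omega) S.ia h4
    rw [S.sa y] at h5
    exact h5

/-- The number of transitive triangles. -/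
def T : ℤ := ∑ x, ∑ y, ∑ s, S.e x y * S.e y s * S.e x s

/-- The number of vertices. -/
noncomputable def Nn (V : Type) [Fintype V] : ℤ := ∑ _x : V, (1 : ℤ)

theorem T_tout : ∑ x, ∑ y, S.e x y * S.tout x y = S.T := by
  unfold T tout
  refine Finset.sum_congr rfl fun x _ => Finset.sum_congr rfl fun y _ => ?_
  rw [Finset.mul_sum]
  exact Finset.sum_congr rfl fun s _ => by ring

theorem T_tlong : ∑ x, ∑ y, S.e x y * S.tlong x y = S.T := by
  unfold T tlong
  refine Finset.sum_congr rfl fun x _ => ?_
  rw [Finset.sum_comm (f := fun y s => S.e x y * S.e y s * S.e x s)]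
  refine Finset.sum_congr rfl fun y _ => ?_
  rw [Finset.mul_sum]
  exact Finset.sum_congr rfl fun s _ => by ring

theorem T_tin : ∑ x, ∑ y, S.e x y * S.tin x y = S.T := by
  unfold T tin
  have h1 : ∀ x y : V, S.e x y * ∑ w, S.e w x * S.e w y = ∑ w, S.e w x * S.e x y * S.e w y := by
    intro x y
    rw [Finset.mul_sum]
    exact Finset.sum_congr rfl fun s _ => by ring
  simp only [h1]
  have h2 : ∀ x : V, ∑ y, ∑ w, S.e w x * S.e x y * S.e w y =
      ∑ w, ∑ y, S.e w x * S.e x y * S.e w y := fun x => Finset.sum_comm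
  simp only [h2]
  exact Finset.sum_comm

/-- The indegree. -/
def din (y : V) : ℤ := ∑ x, S.e x y

theorem sum_arcs : ∑ x, ∑ y, S.e x y = 2 * m * Nn V := by
  unfold Nn
  rw [Finset.mul_sum]
  exact Finset.sum_congr rfl fun x _ => by rw [S.out_deg, mul_one]

theorem sum_din : ∑ y, S.din y = 2 * m * Nn V := by
  rw [← S.sum_arcs]
  unfold din
  exact Finset.sum_comm

theorem sum_din_sq : 4 * m ^ 2 * Nn V ≤ ∑ y, S.din y ^ 2 := by
  have h1 : 0 ≤ ∑ y, (S.din y - 2 * m) ^ 2 := Finset.sum_nonneg fun y _ => sq_nonneg _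
  have h2 : ∑ y, (S.din y - 2 * m) ^ 2 =
      ∑ y, S.din y ^ 2 - 4 * m * ∑ y, S.din y + 4 * m ^ 2 * Nn V := by
    unfold Nn
    rw [Finset.mul_sum, Finset.mul_sum, ← Finset.sum_sub_distrib, ← Finset.sum_add_distrib]
    exact Finset.sum_congr rfl fun y _ => by ring
  rw [h2, S.sum_din] at h1
  nlinarith [h1]

/-- `T ≤ m² N`. -/
theorem T_le : S.T ≤ m ^ 2 * Nn V := by
  have h1 : 2 * S.T ≤ ∑ x, ∑ y, S.e x y * m := by
    have h2 : 2 * S.T = ∑ x, ∑ y, S.e x y * (S.tout x y + S.tlong x y) := by
      rw [two_mul]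
      nth_rewrite 1 [← S.T_tout]
      rw [← S.T_tlong, ← Finset.sum_add_distrib]
      refine Finset.sum_congr rfl fun x _ => ?_
      rw [← Finset.sum_add_distrib]
      exact Finset.sum_congr rfl fun y _ => by ring
    rw [h2]
    refine Finset.sum_le_sum fun x _ => Finset.sum_le_sum fun y _ => ?_
    rcases S.e01 x y with h | h
    · rw [h, zero_mul, zero_mul]
    · rw [h, one_mul, one_mul]
      exact S.arc_bound x y h
  have h3 : ∑ x, ∑ y, S.e x y * m = 2 * m * Nn V * m := by
    rw [← S.sum_arcs, Finset.sum_mul]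
    exact Finset.sum_congr rfl fun x _ => by rw [Finset.sum_mul]
  rw [h3] at h1
  nlinarith [h1]

/-- The sum over the transitive triangles. -/
theorem sum_l (hm : 0 < m) : S.T ≤ ∑ x, ∑ y, S.e x y * S.l x y := by
  -- the pointwise inequality
  have h1 : ∀ x y s, S.e x y * S.e y s * S.e x s *
      (3 * m - S.tout x s - S.tout y s - S.tout x y) ≤
      S.e x y * S.e y s * S.e x s * (S.l x y + S.l x s) := by
    intro x y s
    rcases S.e01 x y with h | h
    · rw [h]; simp
    · rcases S.e01 y s with h' | h'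
      · rw [h']; simp
      · rcases S.e01 x s with h'' | h''
        · rw [h'']; simp
        · have i1 := S.l_first x y s h' h''
          have i2 := S.l_second x y s h h'
          rw [h, h', h'']
          linarith
  have h2 := Finset.sum_le_sum fun x (_ : x ∈ Finset.univ) =>
    Finset.sum_le_sum fun y (_ : y ∈ Finset.univ) =>
      Finset.sum_le_sum fun s (_ : s ∈ Finset.univ) => h1 x y s
  -- the left side
  have hL : ∑ x, ∑ y, ∑ s, S.e x y * S.e y s * S.e x s *
      (3 * m - S.tout x s - S.tout y s - S.tout x y) =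
      3 * m * S.T - ∑ x, ∑ y, S.e x y * (S.tlong x y * S.tout x y)
        - ∑ x, ∑ y, S.e x y * (S.tin x y * S.tout x y)
        - ∑ x, ∑ y, S.e x y * (S.tout x y * S.tout x y) := by
    have a1 : ∑ x, ∑ y, S.e x y * (S.tlong x y * S.tout x y) =
        ∑ x, ∑ y, ∑ s, S.e x y * S.e y s * S.e x s * S.tout x s := by
      refine Finset.sum_congr rfl fun x _ => ?_
      rw [Finset.sum_comm (f := fun y s => S.e x y * S.e y s * S.e x s * S.tout x s)]
      refine Finset.sum_congr rfl fun y _ => ?_
      unfold tlong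
      rw [Finset.sum_mul, Finset.mul_sum]
      exact Finset.sum_congr rfl fun s _ => by ring
    have a2 : ∑ x, ∑ y, S.e x y * (S.tout x y * S.tout x y) =
        ∑ x, ∑ y, ∑ s, S.e x y * S.e y s * S.e x s * S.tout x y := by
      refine Finset.sum_congr rfl fun x _ => Finset.sum_congr rfl fun y _ => ?_
      nth_rewrite 1 [tout]
      rw [Finset.sum_mul, Finset.mul_sum]
      exact Finset.sum_congr rfl fun s _ => by ring
    have a3 : ∑ x, ∑ y, S.e x y * (S.tin x y * S.tout x y) =
        ∑ x, ∑ y, ∑ s, S.e x y * S.e y s * S.e x s * S.tout y s := by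
      have b1 : ∀ y s : V, S.e y s * (S.tin y s * S.tout y s) =
          ∑ x, S.e x y * S.e y s * S.e x s * S.tout y s := by
        intro y s
        unfold tin
        rw [Finset.sum_mul, Finset.mul_sum]
        exact Finset.sum_congr rfl fun x _ => by ring
      simp only [b1]
      have b2 : ∀ y : V, ∑ s, ∑ x, S.e x y * S.e y s * S.e x s * S.tout y s =
          ∑ x, ∑ s, S.e x y * S.e y s * S.e x s * S.tout y s := fun y => Finset.sum_comm
      simp only [b2]
      exact Finset.sum_comm
    rw [a1, a2, a3]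
    unfold T
    rw [Finset.mul_sum, ← Finset.sum_sub_distrib, ← Finset.sum_sub_distrib,
      ← Finset.sum_sub_distrib]
    refine Finset.sum_congr rfl fun x _ => ?_
    rw [Finset.mul_sum, ← Finset.sum_sub_distrib, ← Finset.sum_sub_distrib,
      ← Finset.sum_sub_distrib]
    refine Finset.sum_congr rfl fun y _ => ?_
    rw [Finset.mul_sum, ← Finset.sum_sub_distrib, ← Finset.sum_sub_distrib,
      ← Finset.sum_sub_distrib]
    exact Finset.sum_congr rfl fun s _ => by ring
  -- the right side
  have hR : ∑ x, ∑ y, ∑ s, S.e x y * S.e y s * S.e x s * (S.l x y + S.l x s) =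
      ∑ x, ∑ y, S.e x y * S.l x y * (S.tout x y + S.tlong x y) := by
    have a1 : ∑ x, ∑ y, S.e x y * S.l x y * S.tout x y =
        ∑ x, ∑ y, ∑ s, S.e x y * S.e y s * S.e x s * S.l x y := by
      refine Finset.sum_congr rfl fun x _ => Finset.sum_congr rfl fun y _ => ?_
      unfold tout
      rw [Finset.mul_sum]
      exact Finset.sum_congr rfl fun s _ => by ring
    have a2 : ∑ x, ∑ y, S.e x y * S.l x y * S.tlong x y =
        ∑ x, ∑ y, ∑ s, S.e x y * S.e y s * S.e x s * S.l x s := by
      refine Finset.sum_congr rfl fun x _ => ?_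
      rw [Finset.sum_comm (f := fun y s => S.e x y * S.e y s * S.e x s * S.l x s)]
      refine Finset.sum_congr rfl fun y _ => ?_
      unfold tlong
      rw [Finset.mul_sum]
      exact Finset.sum_congr rfl fun s _ => by ring
    have a3 : ∑ x, ∑ y, S.e x y * S.l x y * (S.tout x y + S.tlong x y) =
        ∑ x, ∑ y, S.e x y * S.l x y * S.tout x y + ∑ x, ∑ y, S.e x y * S.l x y * S.tlong x y := by
      rw [← Finset.sum_add_distrib]
      refine Finset.sum_congr rfl fun x _ => ?_
      rw [← Finset.sum_add_distrib]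
      exact Finset.sum_congr rfl fun y _ => by ring
    rw [a3, a1, a2, ← Finset.sum_add_distrib]
    refine Finset.sum_congr rfl fun x _ => ?_
    rw [← Finset.sum_add_distrib]
    refine Finset.sum_congr rfl fun y _ => ?_
    rw [← Finset.sum_add_distrib]
    exact Finset.sum_congr rfl fun s _ => by ring
  rw [hL, hR] at h2
  -- the bounds
  have h3 : ∑ x, ∑ y, S.e x y * S.l x y * (S.tout x y + S.tlong x y) ≤
      (∑ x, ∑ y, S.e x y * S.l x y) * m := by
    rw [Finset.sum_mul]
    refine Finset.sum_le_sum fun x _ => ?_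
    rw [Finset.sum_mul]
    refine Finset.sum_le_sum fun y _ => ?_
    rcases S.e01 x y with h | h
    · rw [h]; simp
    · rw [h, one_mul]
      exact mul_le_mul_of_nonneg_left (S.arc_bound x y h) (S.l_nonneg x y)
  have h4 : ∑ x, ∑ y, S.e x y * (S.tlong x y * S.tout x y) +
      ∑ x, ∑ y, S.e x y * (S.tout x y * S.tout x y) ≤ S.T * m := by
    rw [← S.T_tout, Finset.sum_mul, ← Finset.sum_add_distrib]
    refine Finset.sum_le_sum fun x _ => ?_
    rw [Finset.sum_mul, ← Finset.sum_add_distrib]
    refine Finset.sum_le_sum fun y _ => ?_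
    rcases S.e01 x y with h | h
    · rw [h]; simp
    · rw [h, one_mul, one_mul, one_mul]
      nlinarith [S.arc_bound x y h, S.tout_nonneg x y]
  have h5 : ∑ x, ∑ y, S.e x y * (S.tin x y * S.tout x y) ≤ S.T * m := by
    rw [← S.T_tin, Finset.sum_mul]
    refine Finset.sum_le_sum fun x _ => ?_
    rw [Finset.sum_mul]
    refine Finset.sum_le_sum fun y _ => ?_
    rcases S.e01 x y with h | h
    · rw [h]; simp
    · rw [h, one_mul, one_mul]
      nlinarith [S.arc_bound x y h, S.tlong_nonneg x y, S.tin_nonneg x y]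
  have h6 : m * S.T ≤ m * ∑ x, ∑ y, S.e x y * S.l x y := by linarith
  exact le_of_mul_le_mul_left h6 hm

/-- The main identity. -/
theorem main_identity : 2 * m * Nn V * Nn V =
    12 * m ^ 2 * Nn V + ∑ y, S.din y ^ 2 - 3 * S.T + ∑ x, ∑ y, S.e x y * S.l x y := by
  have h0 : 2 * m * Nn V * Nn V = ∑ x, ∑ y, ∑ w : V, S.e x y := by
    rw [← S.sum_arcs, Finset.sum_mul]
    refine Finset.sum_congr rfl fun x _ => ?_
    rw [Finset.sum_mul]
    refine Finset.sum_congr rfl fun y _ => ?_
    unfold Nn
    rw [Finset.mul_sum]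
    exact Finset.sum_congr rfl fun w _ => mul_one _
  have hpt : ∀ x y w, S.e x y = S.e x y * (S.e x w + S.e w x) + S.e x y * (S.e y w + S.e w y)
      - S.e x y * (S.e x w * S.e y w) - S.e x y * (S.e x w * S.e w y)
      - S.e x y * (S.e w x * S.e w y)
      + S.e x y * ((1 - (S.e x w + S.e w x)) * (1 - (S.e y w + S.e w y))) := by
    intro x y w
    have h1 : S.e x y * S.e y w * S.e w x = 0 := S.tri x y w
    linear_combination (-1) * h1
  have h1 : ∑ x, ∑ y, ∑ w : V, S.e x y = ∑ x, ∑ y, ∑ w,
      (S.e x y * (S.e x w + S.e w x) + S.e x y * (S.e y w + S.e w y)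
      - S.e x y * (S.e x w * S.e y w) - S.e x y * (S.e x w * S.e w y)
      - S.e x y * (S.e w x * S.e w y)
      + S.e x y * ((1 - (S.e x w + S.e w x)) * (1 - (S.e y w + S.e w y)))) :=
    Finset.sum_congr rfl fun x _ => Finset.sum_congr rfl fun y _ =>
      Finset.sum_congr rfl fun w _ => hpt x y w
  have h2 : ∀ x y, ∑ w,
      (S.e x y * (S.e x w + S.e w x) + S.e x y * (S.e y w + S.e w y)
      - S.e x y * (S.e x w * S.e y w) - S.e x y * (S.e x w * S.e w y)
      - S.e x y * (S.e w x * S.e w y)
      + S.e x y * ((1 - (S.e x w + S.e w x)) * (1 - (S.e y w + S.e w y)))) =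
      S.e x y * (2 * m + S.din x) + S.e x y * (2 * m + S.din y) - S.e x y * S.tout x y
        - S.e x y * S.tlong x y - S.e x y * S.tin x y + S.e x y * S.l x y := by
    intro x y
    have c1 : S.e x y * (2 * m + S.din x) = ∑ w, S.e x y * (S.e x w + S.e w x) := by
      rw [← Finset.mul_sum, Finset.sum_add_distrib, S.out_deg]
      rfl
    have c2 : S.e x y * (2 * m + S.din y) = ∑ w, S.e x y * (S.e y w + S.e w y) := by
      rw [← Finset.mul_sum, Finset.sum_add_distrib, S.out_deg]
      rfl
    have c3 : S.e x y * S.tout x y = ∑ w, S.e x y * (S.e x w * S.e y w) := by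
      rw [← Finset.mul_sum]
      rfl
    have c4 : S.e x y * S.tlong x y = ∑ w, S.e x y * (S.e x w * S.e w y) := by
      rw [← Finset.mul_sum]
      rfl
    have c5 : S.e x y * S.tin x y = ∑ w, S.e x y * (S.e w x * S.e w y) := by
      rw [← Finset.mul_sum]
      rfl
    have c6 : S.e x y * S.l x y =
        ∑ w, S.e x y * ((1 - (S.e x w + S.e w x)) * (1 - (S.e y w + S.e w y))) := by
      rw [← Finset.mul_sum]
      rfl
    rw [c1, c2, c3, c4, c5, c6]
    simp only [Finset.sum_add_distrib, Finset.sum_sub_distrib]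
  rw [h0, h1]
  simp only [h2]
  simp only [Finset.sum_add_distrib, Finset.sum_sub_distrib]
  rw [S.T_tout, S.T_tlong, S.T_tin]
  have d1 : ∑ x, ∑ y, S.e x y * (2 * m + S.din x) = 8 * m ^ 2 * Nn V := by
    have f1 : ∀ x, ∑ y, S.e x y * (2 * m + S.din x) = 4 * m ^ 2 * 1 + 2 * m * S.din x := by
      intro x
      rw [← Finset.sum_mul, S.out_deg]
      ring
    simp only [f1]
    rw [Finset.sum_add_distrib, ← Finset.mul_sum, ← Finset.mul_sum, S.sum_din]
    unfold Nn
    ring
  have d2 : ∑ x, ∑ y, S.e x y * (2 * m + S.din y) = 4 * m ^ 2 * Nn V + ∑ y, S.din y ^ 2 := by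
    rw [Finset.sum_comm]
    have f1 : ∀ y, ∑ x, S.e x y * (2 * m + S.din y) = 2 * m * S.din y + S.din y ^ 2 := by
      intro y
      rw [← Finset.sum_mul]
      change S.din y * (2 * m + S.din y) = _
      ring
    simp only [f1]
    rw [Finset.sum_add_distrib, ← Finset.mul_sum, S.sum_din]
    ring
  rw [d1, d2]
  ring

theorem Nn_eq : Nn V = (Fintype.card V : ℤ) := by
  unfold Nn
  simp

include S in
/-- The pure inequality. -/
theorem seven [Nonempty V] (hm : 0 < m) : 7 * m ≤ (Fintype.card V : ℤ) := by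
  have hN : 0 < Nn V := by
    rw [Nn_eq]
    exact_mod_cast Fintype.card_pos
  rw [← Nn_eq]
  have h1 := S.main_identity
  have h2 := S.sum_l hm
  have h3 := S.T_le
  have h4 := S.sum_din_sq
  have h5 : (2 * m * Nn V) * (7 * m) ≤ (2 * m * Nn V) * Nn V := by nlinarith
  exact le_of_mul_le_mul_left h5 (by positivity)

end PureS

end Pool.Agent.Helper66.RMP
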